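import Pool.Agent.Run7.h621.FV.Planes

/-!
The dimension of the Grassmannian, and numbers.
-/

set_option autoImplicit false

open MvPolynomial

namespace Pool.Agent.Run7.h621.FV

theorem trdeg_le_card {k Ω ι : Type} [Field k] [Field Ω] [Algebra k Ω] [Fintype ι] (x : ι → Ω)
    (A : IntermediateField k Ω) (hA : A ≤ IntermediateField.adjoin k (Set.range x)) :
    Algebra.trdeg k A ≤ Fintype.card ι := by
  obtain ⟨B, hB⟩ : ∃ B, B = IntermediateField.adjoin k (Set.range x) := ⟨_, rfl⟩
  have h1 : Algebra.trdeg k A ≤ Algebra.trdeg k B :=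
    trdeg_le_of_injective (IntermediateField.inclusion (hA.trans hB.ge))
      (IntermediateField.inclusion_injective _)
  refine h1.trans ?_
  have hx : ∀ i, x i ∈ B := fun i => by
    rw [hB]
    exact IntermediateField.subset_adjoin _ _ ⟨i, rfl⟩
  obtain ⟨x', hx'⟩ : ∃ x' : ι → B, ∀ i, x' i = ⟨x i, hx i⟩ := ⟨_, fun _ => rfl⟩
  have h2 : Algebra.IsAlgebraic (Algebra.adjoin k (Set.range x')) B := by
    refine ⟨fun a => ?_⟩
    have h3 : (a : Ω) ∈ IntermediateField.adjoin k (Set.range x) := by
      rw [← hB]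
      exact a.2
    rw [IntermediateField.mem_adjoin_range_iff] at h3
    obtain ⟨p, q, hpq⟩ := h3
    have h4 : ∀ p : MvPolynomial ι k, ((aeval x' p : B) : Ω) = aeval x p := by
      intro p
      have h5 := (B.val).comp_apply (aeval x') p
      have h6 : (B.val).comp (aeval x') = aeval x := by
        apply MvPolynomial.algHom_ext
        intro i
        rw [AlgHom.comp_apply, aeval_X, aeval_X, hx']
        rfl
      rw [← h6]
      rfl
    have h5 : a = aeval x' p * (aeval x' q)⁻¹ := by
      apply Subtype.ext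
      rw [hpq, div_eq_mul_inv]
      push_cast
      rw [h4, h4]
    have h6 : ∀ p : MvPolynomial ι k, IsAlgebraic (Algebra.adjoin k (Set.range x')) (aeval x' p) := by
      intro p
      have h7 : aeval x' p ∈ Algebra.adjoin k (Set.range x') := by
        rw [Algebra.adjoin_range_eq_range_aeval]
        exact ⟨p, rfl⟩
      exact isAlgebraic_algebraMap (⟨_, h7⟩ : Algebra.adjoin k (Set.range x'))
    rw [h5]
    exact (h6 p).mul (h6 q).inv
  refine (Algebra.IsAlgebraic.trdeg_le_cardinalMk k (Set.range x')).trans ?_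
  refine Cardinal.mk_range_le.trans ?_
  rw [Cardinal.mk_fintype]

/-- The dimension of the Grassmannian. -/
theorem gr_dim (k : Type) {ρ σ : Type} [Fintype ρ] [DecidableEq ρ] [Fintype σ] [DecidableEq σ]
    [Field k] : GrDimLE k (∅ : Set (MvPolynomial (ρ → σ) k))
      (Fintype.card ρ * (Fintype.card σ - Fintype.card ρ)) := by
  intro Ω _ _ M hM _
  obtain ⟨c0, hc0⟩ := Function.ne_iff.1 hM
  have hinj : Function.Injective c0 := by
    intro i j hij
    by_contra hne
    apply hc0
    exact Matrix.det_zero_of_column_eq hne fun l => by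
      rw [Matrix.submatrix_apply, Matrix.submatrix_apply, hij]
  obtain ⟨g, hg⟩ : ∃ g, g = (M.submatrix id c0)⁻¹ := ⟨_, rfl⟩
  have hgd : g.det ≠ 0 := by
    rw [hg, Matrix.det_nonsing_inv, Ring.inverse_eq_inv']
    exact inv_ne_zero hc0
  obtain ⟨N, hN⟩ : ∃ N, N = g * M := ⟨_, rfl⟩
  have hN0 : N.submatrix id c0 = 1 := by
    have h3 : (g * M).submatrix id c0 = g * M.submatrix id c0 := rfl
    rw [hN, h3, hg, Matrix.nonsing_inv_mul _ (isUnit_iff_ne_zero.2 hc0)]
  have hpl : ∀ c, pl N c = g.det * pl M c := fun c => by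
    rw [hN, pl_mul]
    rfl
  obtain ⟨x, hx⟩ : ∃ x : ρ × {j // j ∉ Finset.univ.image c0} → Ω, ∀ p, x p = N p.1 p.2.1 :=
    ⟨_, fun _ => rfl⟩
  have hmem : ∀ i j, N i j ∈ IntermediateField.adjoin k (Set.range x) := by
    intro i j
    by_cases hj : j ∈ Finset.univ.image c0
    · obtain ⟨l, -, rfl⟩ := Finset.mem_image.1 hj
      have h1 : N i (c0 l) = (1 : Matrix ρ ρ Ω) i l := by
        rw [← hN0]
        rfl
      rw [h1, Matrix.one_apply]
      split_ifs
      · exact one_mem _
      · exact zero_mem _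
    · exact IntermediateField.subset_adjoin _ _ ⟨(i, ⟨j, hj⟩), hx _⟩
  have hplmem : ∀ c, pl N c ∈ IntermediateField.adjoin k (Set.range x) := by
    intro c
    rw [pl, Matrix.det_apply]
    refine sum_mem fun π _ => ?_
    rw [Units.smul_def]
    exact zsmul_mem (prod_mem fun i _ => hmem _ _) _
  refine (trdeg_le_card x (plField k M) ?_).trans ?_
  · rw [plField, IntermediateField.adjoin_le_iff]
    rintro _ ⟨c, c', hc', rfl⟩
    have h1 : pl M c / pl M c' = pl N c / pl N c' := by
      rw [hpl, hpl, mul_div_mul_left _ _ hgd]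
    rw [h1]
    exact div_mem (hplmem c) (hplmem c')
  · rw [Fintype.card_prod]
    have h1 : Fintype.card {j // j ∉ Finset.univ.image c0} = Fintype.card σ - Fintype.card ρ := by
      rw [Fintype.card_subtype_compl, Fintype.card_coe, Finset.card_image_of_injective _ hinj,
        Finset.card_univ]
    rw [h1]

theorem num (r d : ℕ) : cdeg (0 : Fin (r + 1)) d + Fintype.card (Ex (Fin (r + 1)) d) =
    (d + r + 1).choose (r + 1) := by
  have h1 : Fintype.card (Ex (Fin (r + 1)) d) = (d + r).choose r := by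
    rw [card_ex, Fintype.card_fin, Nat.multichoose_eq]
    have h2 : r + 1 + d - 1 = d + r := by omega
    rw [h2, ← Nat.choose_symm_add]
  have h2 := card_mul_cdeg (0 : Fin (r + 1)) d
  rw [h1, Fintype.card_fin] at h2
  have h3 := Nat.choose_succ_right_eq (d + r) r
  have h4 : d + r - r = d := by omega
  rw [h4] at h3
  have h5 : cdeg (0 : Fin (r + 1)) d = (d + r).choose (r + 1) := by
    have h6 : (r + 1) * cdeg (0 : Fin (r + 1)) d = (r + 1) * (d + r).choose (r + 1) := by
      rw [h2, mul_comm (r + 1), h3, mul_comm]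
    exact Nat.eq_of_mul_eq_mul_left (Nat.succ_pos r) h6
  rw [h5, h1, Nat.choose_succ_succ' (d + r) r]
  ring

end Pool.Agent.Run7.h621.FV
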