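import Pool.Agent.Run7.h621.FV.Arith

/-!
Finiteness of the linear subspaces.
-/

set_option autoImplicit false

open MvPolynomial FF Pool.Agent.W603.LV

namespace Pool.Agent.Run7.h621.FV

variable {ρ σ K : Type} [Fintype ρ] [Fintype σ] [DecidableEq ρ] [DecidableEq σ] [Field K]

omit [DecidableEq σ] in
theorem exists_pl {M : Matrix ρ σ K}
    (hM : Module.finrank K (Submodule.span K (Set.range M.row)) = Fintype.card ρ) :
    ∃ c : ρ → σ, (M.submatrix id c).det ≠ 0 := by
  have h1 : Submodule.span K (Set.range M.col) = ⊤ := by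
    apply Submodule.eq_top_of_finrank_eq
    rw [← Matrix.rank_eq_finrank_span_cols, Matrix.rank_eq_finrank_span_row, hM,
      Module.finrank_fintype_fun_eq_card]
  obtain ⟨b, hb, hbs, hbi⟩ := exists_linearIndependent K (Set.range M.col)
  rw [h1] at hbs
  have hbf : b.Finite := (Set.finite_range _).subset hb
  have := hbf.fintype
  have h2 : Fintype.card b = Fintype.card ρ := by
    have h3 := finrank_span_eq_card hbi
    have h4 : Set.range (fun i : b => (i : ρ → K)) = b := Subtype.range_coe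
    rw [h4, hbs, finrank_top, Module.finrank_fintype_fun_eq_card] at h3
    exact h3.symm
  obtain ⟨e⟩ : Nonempty (ρ ≃ b) := ⟨(Fintype.equivOfCardEq h2).symm⟩
  choose f hf using fun i : b => hb i.2
  refine ⟨fun i => f (e i), ?_⟩
  have h3 : LinearIndependent K (M.submatrix id fun i => f (e i)).col := by
    have h4 : (M.submatrix id fun i => f (e i)).col = (fun i : b => (i : ρ → K)) ∘ e := by
      funext i
      exact hf (e i)
    rw [h4]
    exact hbi.comp _ e.injective
  rw [Matrix.linearIndependent_cols_iff_isUnit, Matrix.isUnit_iff_isUnit_det] at h3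
  exact h3.ne_zero

theorem aeval_smul' {k ι : Type} [Field k] [Algebra k K] {m : ℕ} {f : MvPolynomial ι k}
    (hf : f.IsHomogeneous m) (a : K) (x : ι → K) :
    aeval (a • x) f = a ^ m * aeval x f := by
  classical
  rw [aeval_def, aeval_def, eval₂_eq, eval₂_eq, Finset.mul_sum]
  refine Finset.sum_congr rfl fun u hu => ?_
  have h1 : ∑ i ∈ u.support, u i = m := by
    have h2 := hf (mem_support_iff.1 hu)
    have h3 : u.degree = m := by
      rw [Finsupp.degree_eq_weight_one]
      exact h2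
    exact h3
  have h3 : ∏ i ∈ u.support, (a • x) i ^ u i = a ^ m * ∏ i ∈ u.support, x i ^ u i := by
    simp only [Pi.smul_apply, smul_eq_mul, mul_pow]
    rw [Finset.prod_mul_distrib, Finset.prod_pow_eq_pow_sum, h1]
  rw [h3]
  ring

omit [Fintype σ] [DecidableEq σ] in
theorem pl_mul (g : Matrix ρ ρ K) (M : Matrix ρ σ K) : pl (g * M) = g.det • pl M := by
  funext c
  have h1 : (g * M).submatrix id c = g * M.submatrix id c := rfl
  rw [Pi.smul_apply, smul_eq_mul, pl, pl, h1, Matrix.det_mul]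

theorem res_zero_iff [Infinite K] (M : Matrix ρ σ K) (F : MvPolynomial σ K) :
    res M F = 0 ↔ ∀ v ∈ Submodule.span K (Set.range M.row), eval v F = 0 := by
  have h1 : ∀ y : ρ → K, eval y (res M F) = eval (fun j => ∑ i, y i * M i j) F := by
    intro y
    rw [res_def, ← coe_eval₂Hom, ← RingHom.comp_apply]
    have h2 : (eval y).comp (eval₂Hom C fun j => ∑ i, C (M i j) * X i) =
        eval fun j => ∑ i, y i * M i j := by
      apply MvPolynomial.ringHom_ext
      · intro r
        rw [RingHom.comp_apply, eval₂Hom_C, eval_C, eval_C]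
      · intro j
        rw [RingHom.comp_apply, eval₂Hom_X', eval_X, map_sum]
        refine Finset.sum_congr rfl fun i _ => ?_
        rw [map_mul, eval_C, eval_X, mul_comm]
    rw [h2]
  constructor
  · intro h v hv
    rw [Submodule.mem_span_range_iff_exists_fun] at hv
    obtain ⟨y, rfl⟩ := hv
    have h2 : (∑ i, y i • M.row i) = fun j => ∑ i, y i * M i j := by
      funext j
      rw [Finset.sum_apply]
      rfl
    rw [h2, ← h1, h, map_zero]
  · intro h
    apply MvPolynomial.funext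
    intro y
    rw [h1, map_zero]
    apply h
    rw [Submodule.mem_span_range_iff_exists_fun]
    refine ⟨y, ?_⟩
    funext j
    rw [Finset.sum_apply]
    rfl

omit [Fintype σ] [DecidableEq σ] in
theorem span_mul {g : Matrix ρ ρ K} (hg : g.det ≠ 0) (M : Matrix ρ σ K) :
    Submodule.span K (Set.range (g * M).row) = Submodule.span K (Set.range M.row) := by
  have h1 : ∀ (g : Matrix ρ ρ K) (M : Matrix ρ σ K),
      Submodule.span K (Set.range (g * M).row) ≤ Submodule.span K (Set.range M.row) := by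
    intro g M
    rw [Submodule.span_le]
    rintro _ ⟨i, rfl⟩
    have h2 : (g * M).row i = ∑ k, g i k • M.row k := by
      funext j
      rw [Finset.sum_apply]
      rfl
    rw [h2]
    exact Submodule.sum_mem _ fun k _ => Submodule.smul_mem _ _ (Submodule.subset_span ⟨k, rfl⟩)
  refine le_antisymm (h1 g M) ?_
  have h2 := h1 g⁻¹ (g * M)
  rwa [← Matrix.mul_assoc, Matrix.nonsing_inv_mul _ (isUnit_iff_ne_zero.2 hg), Matrix.one_mul]
    at h2

variable {k0 A : Type} [Field k0] [Algebra k0 K] [IsAlgClosed k0] [IsAlgClosed K] [CharZero K]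
  [Fintype A] {dg : A → ℕ} (I0 : ∀ a, Ex σ (dg a))

/-- Finiteness in a chart. -/
theorem fin_chart {V : Set (MvPolynomial (ρ → σ) k0)} {m : ℕ} (hV : GrDimLE k0 V m)
    (c0 : ρ → σ) (i0 : ρ)
    (hnum : m + Fintype.card σ + 1 ≤ ∑ a, (cdeg i0 (dg a) + Fintype.card (Ex ρ (dg a))))
    {c : Bt I0 → K} (hind : AlgebraicIndependent k0 c) (T : Finset K) :
    {M : Matrix ρ σ K | (∀ i j, M i j ∈ IntermediateField.adjoin k0 (T : Set K)) ∧
      (∀ g ∈ V, aeval (pl M) g = 0) ∧ M.submatrix id c0 = 1 ∧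
      ∀ a, res M (NF I0 c a) = 0}.Finite := by
  have h1 := principle (sys_ineq I0 hV c0 i0 hnum) hind T
  refine (h1.image fun x => (Matrix.of fun i j => x (i, j) : Matrix ρ σ K)).subset ?_
  rintro M ⟨hMT, hM⟩
  refine ⟨fun p => M p.1 p.2, ⟨fun p => hMT p.1 p.2, ?_⟩, rfl⟩
  exact (sys_iff I0 M c).2 hM

theorem form_eq {F : A → MvPolynomial σ K} (hF : ∀ a, (F a).IsHomogeneous (dg a))
    (h0 : ∀ a, (F a).coeff (I0 a).1 ≠ 0) (a : A) :
    F a = C ((F a).coeff (I0 a).1) *
      NF I0 (fun p => (F p.1).coeff p.2.1.1 / (F p.1).coeff (I0 p.1).1) a := by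
  ext u
  rw [coeff_C_mul]
  by_cases hu : u.degree = dg a
  · have h1 := coeff_NF I0 (fun p => (F p.1).coeff p.2.1.1 / (F p.1).coeff (I0 p.1).1) a ⟨u, hu⟩
    dsimp only at h1
    rw [h1, cc]
    split_ifs with h
    · rw [mul_one, ← h]
    · rw [mul_div_cancel₀ _ (h0 a)]
  · rw [coeff_NF' I0 _ a u hu, mul_zero]
    by_contra h
    apply hu
    rw [Finsupp.degree_eq_weight_one]
    exact hF a h

/-- Finiteness of the linear subspaces. -/
theorem fin_planes {V : Set (MvPolynomial (ρ → σ) k0)} (hVh : ∀ f ∈ V, ∃ e, f.IsHomogeneous e)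
    {m : ℕ} (hV : GrDimLE k0 V m) (i0 : ρ)
    (hnum : m + Fintype.card σ + 1 ≤ ∑ a, (cdeg i0 (dg a) + Fintype.card (Ex ρ (dg a))))
    {F : A → MvPolynomial σ K} (hF : ∀ a, (F a).IsHomogeneous (dg a))
    (h0 : ∀ a, (F a).coeff (I0 a).1 ≠ 0)
    (hind : AlgebraicIndependent k0 fun p : Bt I0 =>
      (F p.1).coeff p.2.1.1 / (F p.1).coeff (I0 p.1).1) (T : Finset K) :
    {W : Submodule K (σ → K) | Module.finrank K W = Fintype.card ρ ∧
      (∀ a, ∀ v ∈ W, eval v (F a) = 0) ∧
      ∃ M : Matrix ρ σ K, (∀ i j, M i j ∈ IntermediateField.adjoin k0 (T : Set K)) ∧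
        (∀ f ∈ V, aeval (pl M) f = 0) ∧ Submodule.span K (Set.range M.row) = W}.Finite := by
  have hinf : Infinite K := IsAlgClosed.instInfinite
  refine (Set.finite_iUnion fun c0 : ρ → σ =>
    (fin_chart I0 hV c0 i0 hnum hind T).image fun M =>
      Submodule.span K (Set.range M.row)).subset ?_
  rintro W ⟨hW, hWF, M, hMT, hMV, rfl⟩
  obtain ⟨c1, hc1⟩ := exists_pl hW
  rw [Set.mem_iUnion]
  obtain ⟨g, hg⟩ : ∃ g, g = (M.submatrix id c1)⁻¹ := ⟨_, rfl⟩
  have hgd : g.det ≠ 0 := by
    rw [hg, Matrix.det_nonsing_inv, Ring.inverse_eq_inv']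
    exact inv_ne_zero hc1
  have hdet : ∀ c, (M.submatrix id c).det ∈ IntermediateField.adjoin k0 (T : Set K) := by
    intro c
    rw [Matrix.det_apply]
    refine sum_mem fun π _ => ?_
    rw [Units.smul_def]
    exact zsmul_mem (prod_mem fun i _ => hMT _ _) _
  refine ⟨c1, g * M, ⟨fun i j => ?_, fun f hf => ?_, ?_, fun a => ?_⟩, span_mul hgd M⟩
  · rw [hg, inv_mul_entry]
    exact mul_mem (inv_mem (hdet _)) (hdet _)
  · obtain ⟨e, he⟩ := hVh f hf
    rw [pl_mul, aeval_smul' he, hMV f hf, mul_zero]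
  · have h3 : (g * M).submatrix id c1 = g * M.submatrix id c1 := rfl
    rw [h3, hg, Matrix.nonsing_inv_mul _ (isUnit_iff_ne_zero.2 hc1)]
  · have h1 : res (g * M) (F a) = 0 := by
      rw [res_zero_iff, span_mul hgd]
      exact hWF a
    rw [form_eq I0 hF h0 a, map_mul] at h1
    have h2 : res (g * M) (C ((F a).coeff (I0 a).1)) = C ((F a).coeff (I0 a).1) := by
      rw [← algebraMap_eq, AlgHom.commutes, algebraMap_eq]
    rw [h2] at h1
    exact (mul_eq_zero.1 h1).resolve_left fun h => h0 a (C_eq_zero.1 h)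

end Pool.Agent.Run7.h621.FV
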