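import Pool.Agent.Run7.h621.FV.Change
import Pool.Agent.Run7.h621.FV.Planes
import Pool.Agent.TH145.GF.Main

/-!
Subvarieties of the varieties of linear subspaces are of general type, in a chart.
-/

set_option autoImplicit false

open MvPolynomial FF Pool.Agent.W603.LV Pool.Agent.TH145.GH Pool.Agent.W602.GT
open Pool.Agent.TH145.GF

namespace Pool.Agent.Run7.h621.FV

theorem exists_tb {K L ι : Type} [Field K] [Field L] [Algebra K L] [Finite ι] {w : ℕ}
    (htr : Algebra.trdeg K L = w) {x : ι → L}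
    (h2 : Algebra.IsAlgebraic (IntermediateField.adjoin K (Set.range x)) L) :
    ∃ l : Fin w → ι, IsTranscendenceBasis K fun i => x (l i) := by
  classical
  have h3 : Algebra.IsAlgebraic (Algebra.adjoin K (Set.range x)) L :=
    ⟨fun f => IntermediateField.isAlgebraic_adjoin_iff.1 (h2.isAlgebraic f)⟩
  obtain ⟨u, -, hu, hub⟩ := exists_isTranscendenceBasis_between (R := K) (∅ : Set L) (Set.range x)
    (Set.empty_subset _) ((algebraicIndependent_empty_type_iff (R := K) (A := L)
      (x := fun i : (∅ : Set L) => (i : L))).2 (algebraMap K L).injective)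
  have hfin : Finite u := Set.Finite.to_subtype ((Set.finite_range x).subset hu)
  have := Fintype.ofFinite u
  have hcard : Fintype.card u = w := by
    have h4 := hub.lift_cardinalMk_eq_trdeg
    rw [htr] at h4
    simpa using h4
  obtain ⟨e⟩ : Nonempty (Fin w ≃ u) := ⟨(Fintype.equivFinOfCardEq hcard).symm⟩
  choose l hl using fun i : Fin w => hu (e i).2
  refine ⟨l, ?_⟩
  have h5 : (fun i => x (l i)) = (fun z : u => (z : L)) ∘ e := by
    funext i
    exact hl i
  rw [h5]
  exact (isTranscendenceBasis_equiv e).2 hub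

/-- Subvarieties of the varieties of linear subspaces are of general type, in a chart. -/
theorem general_chart {k0 K L ρ σ A : Type} [Field k0] [Field K] [Field L] [Algebra k0 K]
    [Algebra K L] [IsAlgClosed K] [CharZero K] [Fintype ρ] [Fintype σ] [DecidableEq ρ]
    [DecidableEq σ] [Fintype A] {dg : A → ℕ} (I0 : ∀ a, Ex σ (dg a))
    {V : Set (MvPolynomial (ρ → σ) k0)} {m w : ℕ} (hV : GrDimLE k0 V m) {c0 : ρ → σ} (i0 : ρ)
    (hw : 0 < w) (hnum : m + Fintype.card σ + 1 ≤
      ∑ a, (cdeg i0 (dg a) + Fintype.card (Ex ρ (dg a))) + w)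
    {c : Bt I0 → K} (hind : AlgebraicIndependent k0 c) (htr : Algebra.trdeg K L = w)
    {M : Matrix ρ σ L} (hM : M.submatrix id c0 = 1)
    (hgen : Algebra.IsAlgebraic (IntermediateField.adjoin K
      (Set.range fun p : ρ × σ => M p.1 p.2)) L)
    (hMV : ∀ f ∈ V, aeval (pl M) (map (algebraMap k0 K) f) = 0)
    (hMF : ∀ a, res M (map (algebraMap K L) (NF I0 c a)) = 0) : GeneralType K L w := by
  classical
  let _ : Algebra k0 L := ((algebraMap K L).comp (algebraMap k0 K)).toAlgebra
  have hst : IsScalarTower k0 K L := IsScalarTower.of_algebraMap_eq fun _ => rfl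
  have hL : CharZero L := charZero_of_injective_algebraMap (algebraMap K L).injective
  obtain ⟨l, hl⟩ := exists_tb htr hgen
  obtain ⟨t, ht⟩ : ∃ t : Fin w → L, ∀ i, t i = M (l i).1 (l i).2 := ⟨_, fun _ => rfl⟩
  have htb : IsTranscendenceBasis K t := by
    have : t = fun i => M (l i).1 (l i).2 := funext ht
    rw [this]
    exact hl
  -- the vertical derivations
  obtain ⟨E, hE⟩ : ∃ E : Fin w → Derivation K L L, ∀ i j, E i (t j) = if i = j then 1 else 0 := by
    obtain ⟨E, hE⟩ := exists_dual htb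
    refine ⟨E, fun i j => ?_⟩
    have := congrFun (congrFun hE i) j
    rw [Matrix.of_apply, Matrix.one_apply] at this
    rw [this]
  -- the dual derivations
  obtain ⟨δ, hδS, hδ⟩ := exists_dualsG htb c hind
  have hδk : ∀ b (r : k0), δ b (algebraMap k0 L r) = 0 := fun b r => (δ b).map_algebraMap r
  obtain ⟨D, ε, hD, hDr⟩ := exists_DP I0 (fun b => algebraMap K L (c b))
    (fun b => (δ b).restrictScalars ℤ) (fun b b' => (hδ b b').trans (by congr))
  have hDsum : ∀ a I, ∃ r : Bt I0 → L, (∀ b, r b = 0 ∨ r b = 1 ∨ r b = - algebraMap K L (c b)) ∧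
      ∀ f, D a I f = ∑ b, r b * δ b f := by
    intro a I
    obtain ⟨r, hr, hr'⟩ := hDr a I
    refine ⟨r, hr, fun f => ?_⟩
    rw [hr' f, finsum_eq_sum_of_fintype]
    rfl
  have hDk : ∀ a I (r : k0), D a I (algebraMap k0 L r) = 0 := by
    intro a I r
    obtain ⟨s, -, hs⟩ := hDsum a I
    rw [hs]
    exact Finset.sum_eq_zero fun b _ => by rw [hδk, mul_zero]
  have hDS : ∀ a I, Sem K (D a I) := by
    intro a I r
    obtain ⟨s, hs0, hs⟩ := hDsum a I
    have h1 : ∀ b, ∃ z : K, s b = algebraMap K L z := fun b => by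
      rcases hs0 b with h | h | h
      · exact ⟨0, by rw [h, map_zero]⟩
      · exact ⟨1, by rw [h, map_one]⟩
      · exact ⟨-c b, by rw [h, map_neg]⟩
    have h2 : ∀ b, ∃ z : K, δ b (algebraMap K L r) = algebraMap K L z := fun b => hδS b r
    choose z1 hz1 using h1
    choose z2 hz2 using h2
    refine ⟨∑ b, z1 b * z2 b, ?_⟩
    rw [hs, map_sum]
    exact Finset.sum_congr rfl fun b _ => by rw [hz1, hz2, map_mul]
  simp only [map_NF] at hMF
  have hMV' : ∀ f ∈ V, aeval (pl M) f = 0 := by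
    intro f hf
    have h1 := hMV f hf
    rwa [aeval_map_algebraMap] at h1
  have hX : LinearIndependent L (fun ξ => M.map ((E ξ).restrictScalars ℤ)) := by
    rw [Fintype.linearIndependent_iff]
    intro g hg j
    have h1 := congrFun (congrFun hg (l j).1) (l j).2
    rw [Matrix.sum_apply, Finset.sum_eq_single j] at h1
    · change g j * E j (M (l j).1 (l j).2) = 0 at h1
      rwa [← ht, hE, if_pos rfl, mul_one] at h1
    · intro i _ hi
      change g i * E i (M (l j).1 (l j).2) = 0
      rw [← ht, hE, if_neg hi, mul_zero]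
    · intro h; exact absurd (Finset.mem_univ _) h
  obtain ⟨τ, i1, i2, υ, i3, i4, tt, s, e, hsp, htt, hs, hli, hcard⟩ := pick hD
    (E := fun ξ => (E ξ).restrictScalars ℤ) (fun ξ b => by
      ext u
      rw [coeff_cd, coeff_zero]
      have h1 : (NF I0 (fun b => algebraMap K L (c b)) b).coeff u =
          algebraMap K L ((NF I0 c b).coeff u) := by
        rw [← map_NF, coeff_map]
      rw [h1]
      exact (E ξ).map_algebraMap _) hM hX hMF
    (N := TanM k0 M) (m := m) (rank_le hM (trdeg_chart hV hM hMV'))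
    (fun Z => ⟨Z, 0, fun _ => rfl, by
      have h1 : M.map (0 : Derivation ℤ L L) = 0 := rfl
      rw [h1, add_zero]⟩)
    (fun a I => ⟨0, D a I, fun r => hDk a I r, by rw [Matrix.zero_mul, zero_add]⟩)
    (fun ξ => ⟨0, (E ξ).restrictScalars ℤ, fun r => by
      change E ξ (algebraMap k0 L r) = 0
      rw [IsScalarTower.algebraMap_apply k0 K L]
      exact (E ξ).map_algebraMap _, by rw [Matrix.zero_mul, zero_add]⟩)
  rw [Fintype.card_fin] at hcard
  obtain ⟨Δ, hΔ⟩ : ∃ Δ : (Fin w → Derivation K L L) → L, ∀ Dd, Δ Dd =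
    dt e (row dg D (fun ξ => (Dd ξ).restrictScalars ℤ) tt c0 s M) := ⟨_, fun _ => rfl⟩
  have hΔE : Δ E ≠ 0 := by
    rw [hΔ]
    exact dt_ne_zero e hli
  have hlin : ∀ (B : Matrix (Fin w) (Fin w) L) (D1 D2 : Fin w → Derivation K L L),
      (∀ i f, D1 i f = ∑ j, B i j * D2 j f) → Δ D1 = B.det * Δ D2 := by
    intro B D1 D2 h
    rw [hΔ, hΔ]
    exact dt_change e h (r := fun _ _ _ => 0) (fun a I f => by simp) c0 s M
  have hc1 : (1 : ℤ) ≤ (∑ a, cdeg i0 (dg a) : ℕ) - (Fintype.card σ : ℤ) - (Fintype.card τ : ℤ) := by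
    rw [Finset.sum_add_distrib] at hnum
    have hcard' : Fintype.card (Σ a, Ex ρ (dg a)) = ∑ a, Fintype.card (Ex ρ (dg a)) :=
      Fintype.card_sigma
    have : m + Fintype.card σ + 1 ≤ ∑ a, cdeg i0 (dg a) +
      ∑ a, Fintype.card (Ex ρ (dg a)) + w := hnum
    omega
  -- the regularity
  have hreg : ∀ (P : Place K L), Divisorial w P → ∀ Dd : Fin w → Derivation K L L,
      (∀ i, DerReg P (Dd i)) → ∃ h : ℤ, 0 ≤ h ∧ (∀ i j, Ge P (-h) (M i j)) ∧ Ge P h (Δ Dd) := by
    intro P hP Dd hDd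
    obtain ⟨B, hB⟩ : ∃ B : Matrix (Fin w) (Fin w) L, B = Matrix.of fun i j => Dd i (t j) := ⟨_, rfl⟩
    have hDE : ∀ i f, Dd i f = ∑ j, B i j * E j f := fun i f => by
      rw [der_comb htb hE (Dd i) f, hB]
      rfl
    have h1 := hlin B Dd E hDE
    by_cases hB0 : B.det = 0
    · obtain ⟨h, g, c1, h0, -, -, h2, -⟩ := exists_chart P M hM
      refine ⟨h, h0, h2, ?_⟩
      rw [h1, hB0, zero_mul]
      exact Ge.zero
    have hΔD : Δ Dd ≠ 0 := by
      rw [h1]
      exact mul_ne_zero hB0 hΔE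
    choose ξ hξ using fun a I => exists_lift hw htr hP (hDS a I)
    obtain ⟨D2, hD2⟩ : ∃ D2 : A → (σ →₀ ℕ) → Derivation ℤ L L, ∀ a I f, D2 a I f =
      D a I f - ξ a I f := ⟨fun a I => D a I - (ξ a I).restrictScalars ℤ, fun a I f => by simp⟩
    have hED : ∀ i f, E i f = ∑ j, B⁻¹ i j * Dd j f := by
      intro i f
      have h2 : ∀ j, B⁻¹ i j * Dd j f = ∑ k, B⁻¹ i j * B j k * E k f := fun j => by
        rw [hDE, Finset.mul_sum]
        exact Finset.sum_congr rfl fun k _ => by ring
      rw [Finset.sum_congr rfl fun j _ => h2 j, Finset.sum_comm]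
      have h3 : ∀ k, ∑ j, B⁻¹ i j * B j k * E k f = (1 : Matrix (Fin w) (Fin w) L) i k * E k f := by
        intro k
        rw [← Finset.sum_mul, ← Matrix.nonsing_inv_mul B (isUnit_iff_ne_zero.2 hB0),
          Matrix.mul_apply]
      rw [Finset.sum_congr rfl fun k _ => h3 k, Finset.sum_eq_single i]
      · rw [Matrix.one_apply_eq, one_mul]
      · intro k _ hk
        rw [Matrix.one_apply_ne (Ne.symm hk), zero_mul]
      · intro h; exact absurd (Finset.mem_univ _) h
    have hDD2 : ∀ a I f, D a I f = D2 a I f + ∑ j, (∑ k, ξ a I (t k) * B⁻¹ k j) * Dd j f := by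
      intro a I f
      rw [hD2]
      have h2 : ξ a I f = ∑ j, (∑ k, ξ a I (t k) * B⁻¹ k j) * Dd j f := by
        rw [der_comb htb hE (ξ a I) f]
        simp only [Finset.sum_mul]
        rw [Finset.sum_comm]
        refine Finset.sum_congr rfl fun k _ => ?_
        rw [hED, Finset.mul_sum]
        exact Finset.sum_congr rfl fun j _ => by ring
      rw [← h2]
      ring
    have hΔ2 : Δ Dd = dt e (row dg D2 (fun ξ => (Dd ξ).restrictScalars ℤ) tt c0 s M) := by
      have h2 := dt_change (D1 := D) (D2 := D2) (E1 := fun ξ => (E ξ).restrictScalars ℤ)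
        (E2 := fun ξ => (Dd ξ).restrictScalars ℤ) (t := tt) e (B := B⁻¹) hED hDD2 c0 s M
      rw [h1, hΔ, h2, ← mul_assoc, ← Matrix.det_mul, Matrix.mul_nonsing_inv _
        (isUnit_iff_ne_zero.2 hB0), Matrix.det_one, one_mul]
    obtain ⟨h, h0, h2, h3⟩ := ord_dt (E := fun ξ => (Dd ξ).restrictScalars ℤ) P i0 e hM (spans_change hED hDD2 hsp) s (fun y i j => by
        obtain ⟨i', j', h2⟩ := hs y
        rw [h2, Matrix.single_apply]
        split_ifs
        · exact Ge.one
        · exact Ge.zero) htt (e' := 0) (fun f hf a I => by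
        rw [neg_zero, hD2]
        by_cases hf0 : f = 0
        · rw [hf0, map_zero, map_zero, sub_zero]
          exact Ge.zero
        · exact (hξ a I f hf0).mono (hf.resolve_left hf0)) (fun f hf ξ => hDd ξ f hf) (by
        rw [← hΔ2]
        exact hΔD)
    rw [← hΔ2, mul_zero, sub_zero] at h3
    refine ⟨h, h0, h2, Or.inr ?_⟩
    have h4 := mul_le_mul_of_nonneg_right hc1 h0
    rw [one_mul] at h4
    exact h4.trans h3
  -- the forms
  obtain ⟨y, hy⟩ : ∃ y : Fin (w + 1) → L, y = Fin.cons 1 t := ⟨_, rfl⟩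
  refine ⟨htr, 1, one_pos, fun j Dd => Δ Dd * y j, fun j B Dd => ?_, fun P hP j Dd hDd => ?_, E, ?_,
    ?_⟩
  · change Δ _ * y j = B.det ^ 1 * (Δ Dd * y j)
    rw [pow_one, hlin B _ Dd (fun i f => ?_)]
    · ring
    · rw [← Derivation.coeFnAddMonoidHom_apply, map_sum, Finset.sum_apply]
      rfl
  · obtain ⟨h, h0, h1, h2⟩ := hreg P hP Dd hDd
    have h3 : Ge P (-h) (y j) := by
      rw [hy]
      refine Fin.cases ?_ (fun i => ?_) j
      · rw [Fin.cons_zero]
        exact Ge.one.mono (by omega)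
      · rw [Fin.cons_succ, ht]
        exact h1 _ _
    have h4 := h2.mul h3
    rw [add_neg_cancel] at h4
    exact h4
  · rw [hy]
    change Δ E * (Fin.cons 1 t : Fin (w + 1) → L) 0 ≠ 0
    rw [Fin.cons_zero, mul_one]
    exact hΔE
  · have h1 : (fun i : Fin w => Δ E * y i.succ / (Δ E * y 0)) = t := by
      funext i
      rw [hy, Fin.cons_succ, Fin.cons_zero, mul_one, mul_div_cancel_left₀ _ hΔE]
    change AlgebraicIndependent K (fun i : Fin w => Δ E * y i.succ / (Δ E * y 0))
    rw [h1]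
    exact htb.1

end Pool.Agent.Run7.h621.FV
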