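import Pool.Agent.Run7.h621.FV.Row
import Pool.Agent.TH145.GH.Ineq

/-!
The order of the determinant of the rows at a place.
-/

set_option autoImplicit false

open MvPolynomial FF Pool.Agent.W603.LV
open scoped Kronecker

namespace Pool.Agent.Run7.h621.FV

variable {k L : Type} [Field k] [Field L] [Algebra k L]

section

variable {ρ σ : Type} [Fintype ρ] [Fintype σ] [DecidableEq ρ] [DecidableEq σ]

theorem ge_dt {ι : Type} [Fintype ι] (P : Place k L) (e : ρ × σ ≃ ι) {v : ι → Matrix ρ σ L}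
    {w : ι → ℤ} (h : ∀ i p q, Ge P (w i) (v i p q)) : Ge P (∑ i, w i) (dt e v) := by
  rw [dt, Matrix.det_apply']
  refine Ge.sum _ _ fun π _ => ?_
  have h1 := (Ge.intCast (P := P) (Equiv.Perm.sign π : ℤ)).mul
    (Ge.prod Finset.univ (fun i : ρ × σ => (Matrix.of fun p q : ρ × σ => v (e p) q.1 q.2) (π i) i)
      (fun i => w (e (π i))) (fun i _ => h _ _ _))
  rw [zero_add, Equiv.sum_comp π (fun i => w (e i)), Equiv.sum_comp e] at h1
  exact h1

omit [Fintype ρ] [DecidableEq ρ] [Fintype σ] [DecidableEq σ] in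
theorem ge_mul {π κ : Type} [Fintype π] (P : Place k L) {a b : ℤ} {Y : Matrix ρ π L} {Z : Matrix π κ L}
    (hY : ∀ i j, Ge P a (Y i j)) (hZ : ∀ i j, Ge P b (Z i j)) (i : ρ) (j : κ) :
    Ge P (a + b) ((Y * Z) i j) := by
  rw [Matrix.mul_apply]
  exact Ge.sum _ _ fun l _ => (hY _ _).mul (hZ _ _)

omit [Fintype σ] in
theorem updateCol_sub (M : Matrix ρ σ L) (c : ρ → σ) (i : ρ) (j : σ) :
    (M.submatrix id c).updateCol i (fun l => M l j) = M.submatrix id (Function.update c i j) := by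
  ext a b
  rw [Matrix.updateCol_apply, Matrix.submatrix_apply, Matrix.submatrix_apply]
  by_cases h : b = i
  · rw [if_pos h, h, Function.update_self]
    rfl
  · rw [if_neg h, Function.update_of_ne h]

omit [Fintype σ] in
theorem entry_eq (M : Matrix ρ σ L) {c : ρ → σ} (hM : M.submatrix id c = 1) (i : ρ) (j : σ) :
    M i j = (M.submatrix id (Function.update c i j)).det := by
  rw [← updateCol_sub, hM, ← Matrix.cramer_apply, Matrix.cramer_one]
  rfl

omit [Fintype σ] in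
theorem inv_mul_entry (M : Matrix ρ σ L) (c : ρ → σ) (i : ρ) (j : σ) :
    ((M.submatrix id c)⁻¹ * M) i j =
      ((M.submatrix id c).det)⁻¹ * (M.submatrix id (Function.update c i j)).det := by
  rw [← updateCol_sub, ← Matrix.cramer_apply, Matrix.cramer_eq_adjugate_mulVec, Matrix.inv_def,
    Ring.inverse_eq_inv', Matrix.smul_mul, Matrix.smul_apply, smul_eq_mul]
  rfl

/-- The best chart at a place. -/
theorem exists_chart (P : Place k L) (M : Matrix ρ σ L) {c0 : ρ → σ}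
    (hM : M.submatrix id c0 = 1) :
    ∃ (h : ℤ) (g : Matrix ρ ρ L) (c1 : ρ → σ), 0 ≤ h ∧ g.det ≠ 0 ∧ P.ord g.det = h ∧
      (∀ i j, Ge P (-h) (M i j)) ∧ (∀ i j, Ge P 0 (g i j)) ∧ (∀ i j, Ge P 0 ((g * M) i j)) ∧
      (g * M).submatrix id c1 = 1 := by
  classical
  obtain ⟨c1, hc1, hmin⟩ : ∃ c1 : ρ → σ, (M.submatrix id c1).det ≠ 0 ∧ ∀ c,
      (M.submatrix id c).det ≠ 0 → P.ord (M.submatrix id c1).det ≤ P.ord (M.submatrix id c).det := by
    have h1 : (Finset.univ.filter fun c : ρ → σ => (M.submatrix id c).det ≠ 0).Nonempty :=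
      ⟨c0, by
        rw [Finset.mem_filter, hM, Matrix.det_one]
        exact ⟨Finset.mem_univ _, one_ne_zero⟩⟩
    obtain ⟨c1, hc1, hmin⟩ := Finset.exists_min_image _ (fun c => P.ord (M.submatrix id c).det) h1
    exact ⟨c1, (Finset.mem_filter.1 hc1).2, fun c hc =>
      hmin c (Finset.mem_filter.2 ⟨Finset.mem_univ _, hc⟩)⟩
  obtain ⟨A, hA⟩ : ∃ A, A = M.submatrix id c1 := ⟨_, rfl⟩
  rw [← hA] at hc1 hmin
  have hge : ∀ c, Ge P (P.ord A.det) (M.submatrix id c).det := by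
    intro c
    by_cases h0 : (M.submatrix id c).det = 0
    · exact Or.inl h0
    · exact Or.inr (hmin c h0)
  have hnn : 0 ≤ - P.ord A.det := by
    have h2 := hmin c0 (by rw [hM, Matrix.det_one]; exact one_ne_zero)
    rw [hM, Matrix.det_one, P.ord_one] at h2
    omega
  have hgA : A⁻¹ * A = 1 := Matrix.nonsing_inv_mul _ (isUnit_iff_ne_zero.2 hc1)
  have hint : ∀ i j, Ge P 0 ((A⁻¹ * M) i j) := by
    intro i j
    rw [hA, inv_mul_entry, ← hA]
    have h2 : Ge P (- P.ord A.det) (A.det)⁻¹ := by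
      right
      rw [P.ord_inv]
    have h3 := h2.mul (hge (Function.update c1 i j))
    rwa [neg_add_cancel] at h3
  have hg0 : ∀ i j, A⁻¹ i j = (A⁻¹ * M) i (c0 j) := by
    intro i j
    have h2 : (A⁻¹ * M).submatrix id c0 = A⁻¹ := by
      have h3 : (A⁻¹ * M).submatrix id c0 = A⁻¹ * M.submatrix id c0 := by
        ext a b
        rfl
      rw [h3, hM, Matrix.mul_one]
    exact (congrFun (congrFun h2 i) j).symm
  refine ⟨- P.ord A.det, A⁻¹, c1, hnn, ?_, ?_, fun i j => ?_, fun i j => ?_, hint, ?_⟩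
  · rw [Matrix.det_nonsing_inv, Ring.inverse_eq_inv']
    exact inv_ne_zero hc1
  · rw [Matrix.det_nonsing_inv, Ring.inverse_eq_inv', P.ord_inv]
  · rw [entry_eq M hM, neg_neg]
    exact hge _
  · rw [hg0]
    exact hint _ _
  · have h3 : (A⁻¹ * M).submatrix id c1 = A⁻¹ * M.submatrix id c1 := by
      ext a b
      rfl
    rw [h3, ← hA, hgA]

omit [Fintype σ] [DecidableEq ρ] in
theorem ge_lf_coeff (P : Place k L) {M : Matrix ρ σ L} {h : ℤ} (h0 : 0 ≤ h)
    (hM : ∀ i j, Ge P (-h) (M i j)) (c : ρ → σ) (β : σ →₀ ℕ) (j : σ) (u : σ →₀ ℕ) :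
    Ge P (-h) ((monomial β (1 : L) * lf M c j).coeff u) := by
  have h1 : monomial β (1 : L) * lf M c j = monomial (β + Finsupp.single j 1) 1 -
      ∑ i, monomial (β + Finsupp.single (c i) 1) (M i j) := by
    rw [lf, mul_sub, Finset.mul_sum, X, monomial_mul, one_mul]
    congr 1
    refine Finset.sum_congr rfl fun i _ => ?_
    rw [X, C_mul_monomial, mul_one, monomial_mul, one_mul]
  rw [h1, coeff_sub, coeff_sum]
  refine Ge.sub ?_ (Ge.sum _ _ fun i _ => ?_)
  · rw [coeff_monomial]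
    split_ifs
    · exact (Ge.one (P := P)).mono (by omega)
    · exact Ge.zero
  · rw [coeff_monomial]
    split_ifs
    · exact hM i j
    · exact Ge.zero

end

variable {ρ σ A X τ ε : Type} [Fintype ρ] [Fintype σ] [DecidableEq ρ] [DecidableEq σ]

/-- The order of the determinant of the rows at a place. -/
theorem ord_dt [Fintype A] [Fintype X] [Fintype τ] [Fintype ε] [DecidableEq A] [DecidableEq X]
    [DecidableEq τ] [DecidableEq ε] [CharZero L] (P : Place k L) {dg : A → ℕ}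
    {D : A → (σ →₀ ℕ) → Derivation ℤ L L}
    {E : X → Derivation ℤ L L} {t : τ → A × MvPolynomial σ L} (i0 : ρ)
    (e : ρ × σ ≃ ((ρ × ρ) ⊕ (X ⊕ τ)) ⊕ ((Σ a, Ex ρ (dg a)) ⊕ ε))
    {M : Matrix ρ σ L} {c0 : ρ → σ} (hM0 : M.submatrix id c0 = 1)
    (hsp : Spans dg D E t M) (s : ε → Matrix ρ σ L) (hs : ∀ y i j, Ge P 0 (s y i j))
    (ht : ∀ x, ∃ β j, (t x).2 = monomial β 1 * lf M c0 j) {e' : ℤ}
    (hD : ∀ f, Ge P 0 f → ∀ a I, Ge P (-e') (D a I f)) (hE : ∀ f, Ge P 0 f → ∀ ξ, Ge P 0 (E ξ f))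
    (hne : dt e (row dg D E t c0 s M) ≠ 0) :
    ∃ h : ℤ, 0 ≤ h ∧ (∀ i j, Ge P (-h) (M i j)) ∧
      ((∑ a, cdeg i0 (dg a) : ℕ) - (Fintype.card σ : ℤ) - (Fintype.card τ : ℤ)) * h -
        ((Fintype.card τ : ℤ) + (Fintype.card (Σ a, Ex ρ (dg a)) : ℤ)) * e' ≤
      P.ord (dt e (row dg D E t c0 s M)) := by
  obtain ⟨h, g, c1, h0, hg, hgo, hM, hgi, hgM, hc1⟩ := exists_chart P M hM0
  refine ⟨h, h0, hM, ?_⟩
  have h1 := dt_chart i0 e hg hM0 hc1 hsp s
  obtain ⟨v', hv'⟩ : ∃ v', v' = row dg D E t c1 (fun y => g * s y) (g * M) := ⟨_, rfl⟩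
  rw [← hv', Finset.prod_pow_eq_pow_sum] at h1
  have hv'0 : dt e v' ≠ 0 := by
    intro h2
    rw [h2, mul_zero] at h1
    exact mul_ne_zero (pow_ne_zero _ hg) hne h1
  have h2 := congrArg P.ord h1
  rw [P.ord_mul (pow_ne_zero _ hg) hne, P.ord_mul (pow_ne_zero _ hg) hv'0, P.ord_pow, P.ord_pow,
    hgo] at h2
  have hDm : ∀ a (b : ℤ) (Q : MvPolynomial σ L), (∀ u, Ge P b (Q.coeff u)) → ∀ i j,
      Ge P (b - e') (Dm (D a) (g * M) Q i j) := by
    intro a b Q hQ i j
    rw [Dm_apply, Matrix.sum_apply]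
    refine Ge.sum _ _ fun u _ => ?_
    rw [Matrix.smul_apply, Matrix.map_apply, smul_eq_mul]
    exact (hQ u).mul (hD _ (hgM i j) a u)
  have h3 := ge_dt P e (v := v') (w := fun i => match i with
    | Sum.inl (Sum.inl _) => 0
    | Sum.inl (Sum.inr (Sum.inl _)) => 0
    | Sum.inl (Sum.inr (Sum.inr _)) => -h - e'
    | Sum.inr (Sum.inl _) => -e'
    | Sum.inr (Sum.inr _) => 0) (by
    rw [hv']
    rintro ((p | ξ | x) | (q | y)) i j
    · have h4 := ge_mul P (a := 0) (b := 0) (Y := Matrix.single p.1 p.2 (1 : L)) (Z := g * M)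
        (fun i j => by
          rw [Matrix.single_apply]
          split_ifs
          · exact Ge.one
          · exact Ge.zero) hgM i j
      rwa [add_zero] at h4
    · exact hE _ (hgM i j) ξ
    · obtain ⟨β, l, hβ⟩ := ht x
      change Ge P (-h - e') (Dm (D (t x).1) (g * M) (t x).2 i j)
      refine hDm _ _ _ (fun u => ?_) i j
      rw [hβ]
      exact ge_lf_coeff P h0 hM c0 β l u
    · change Ge P (-e') (Dm (D q.1) (g * M) (rename c1 (monomial q.2.1 1)) i j)
      rw [rename_monomial, Dm_mon, Matrix.map_apply]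
      exact hD _ (hgM i j) _ _
    · have h4 := ge_mul P (a := 0) (b := 0) hgi (hs y) i j
      rwa [add_zero] at h4)
  rw [Fintype.sum_sum_type, Fintype.sum_sum_type, Fintype.sum_sum_type, Fintype.sum_sum_type] at h3
  simp only [Finset.sum_const_zero, Finset.sum_const, Finset.card_univ, nsmul_eq_mul, zero_add,
    add_zero] at h3
  have h4 := h3.resolve_left hv'0
  have h5 : ((∑ a, cdeg i0 (dg a) : ℕ) - (Fintype.card σ : ℤ) - (Fintype.card τ : ℤ)) * h -
      ((Fintype.card τ : ℤ) + (Fintype.card (Σ a, Ex ρ (dg a)) : ℤ)) * e' =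
      (∑ a, cdeg i0 (dg a) : ℕ) * h - (Fintype.card σ : ℤ) * h + ((Fintype.card τ : ℤ) * (-h - e') +
        (Fintype.card (Σ a, Ex ρ (dg a)) : ℤ) * -e') := by ring
  rw [h5]
  linarith

end Pool.Agent.Run7.h621.FV
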