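import Pool.Agent.Run7.h621.FV.Rank
import Pool.Agent.Run7.h621.FV.Local

/-!
The height inequality over function fields.
-/

set_option autoImplicit false

open MvPolynomial FF Pool.Agent.W603.LV

namespace Pool.Agent.Run7.h621.FV

/-- The height inequality. -/
theorem hgt_ineq {k0 κ Λ ρ σ A : Type} [Field k0] [Field κ] [Field Λ] [Algebra κ Λ] [Algebra k0 Λ]
    [IsAlgClosed κ] [CharZero κ] [IsFF κ Λ] [Fintype ρ] [Fintype σ] [DecidableEq ρ] [DecidableEq σ]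
    [Fintype A] {F : A → MvPolynomial σ Λ} {dg : A → ℕ}
    {D : A → (σ →₀ ℕ) → Derivation ℤ Λ Λ} {ε : A → (σ →₀ ℕ) → Λ} (hD : DualP F dg D ε)
    (hDk : ∀ a I (r : k0), D a I (algebraMap k0 Λ r) = 0) {e : Place κ Λ → ℤ} (he : ∀ P, 0 ≤ e P)
    (hef : {P | e P ≠ 0}.Finite) (hloss : ∀ P f, Ge P 0 f → ∀ a I, Ge P (-e P) (D a I f))
    {M : Matrix ρ σ Λ} {c0 : ρ → σ} (hM : M.submatrix id c0 = 1) (hF : ∀ a, res M (F a) = 0)
    {m : ℕ} (htr : Algebra.trdeg k0 (IntermediateField.adjoin k0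
      (Set.range fun p : ρ × σ => M p.1 p.2)) ≤ m) (i0 : ρ)
    (hnum : m + Fintype.card σ + 1 ≤ ∑ a, (cdeg i0 (dg a) + Fintype.card (Ex ρ (dg a))))
    (i : ρ) (j : σ) : hgt κ (M i j) ≤ m * ∑ᶠ P, e P := by
  classical
  have hc : CharZero Λ := charZero_of_injective_algebraMap (algebraMap κ Λ).injective
  obtain ⟨τ, i1, i2, υ, i3, i4, t, s, b, hsp, ht, hs, hli, hcard⟩ := pick (X := Empty) hD
    (E := fun x => x.elim) (fun x => x.elim) hM (linearIndependent_empty_type) hF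
    (N := TanM k0 M) (m := m) (rank_le hM htr)
    (fun Z => ⟨Z, 0, fun _ => rfl, by
      have h1 : M.map (0 : Derivation ℤ Λ Λ) = 0 := rfl
      rw [h1, add_zero]⟩)
    (fun a I => ⟨0, D a I, fun r => hDk a I r, by rw [Matrix.zero_mul, zero_add]⟩)
    (fun x => x.elim)
  obtain ⟨Θ, hΘ⟩ : ∃ Θ, Θ = dt b (row dg D (fun x : Empty => x.elim) t c0 s M) := ⟨_, rfl⟩
  have hΘ0 : Θ ≠ 0 := by
    rw [hΘ]
    exact dt_ne_zero b hli
  have h1 : ∀ P : Place κ Λ, ∃ h : ℤ, 0 ≤ h ∧ (∀ i j, Ge P (-h) (M i j)) ∧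
      ((∑ a, cdeg i0 (dg a) : ℕ) - (Fintype.card σ : ℤ) - (Fintype.card τ : ℤ)) * h -
        ((Fintype.card τ : ℤ) + (Fintype.card (Σ a, Ex ρ (dg a)) : ℤ)) * e P ≤ P.ord Θ := by
    intro P
    rw [hΘ]
    refine ord_dt P i0 b hM hsp s (fun y i j => ?_) ht (fun f hf a I => hloss P f hf a I)
      (fun _ _ x => x.elim) (by rw [← hΘ]; exact hΘ0)
    obtain ⟨i', j', h2⟩ := hs y
    rw [h2, Matrix.single_apply]
    split_ifs
    · exact Ge.one
    · exact Ge.zero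
  choose h h0 hM' hle using h1
  obtain ⟨T1, hT1⟩ := exists_supp (k := κ) (Finset.univ : Finset (Fin 2)) ![M i j, Θ]
  obtain ⟨T, hT⟩ : ∃ T, T = T1 ∪ hef.toFinset := ⟨_, rfl⟩
  have hs1 : ∑ P ∈ T, P.ord Θ = 0 := sum_ord_finset _ _ fun P hP => by
    rw [hT]
    exact Finset.mem_union_left _ (hT1 1 (Finset.mem_univ _) P hP)
  have hs2 : hgt κ (M i j) = ∑ P ∈ T, max (-P.ord (M i j)) 0 := hgt_finset _ _ fun P hP => by
    rw [hT]
    exact Finset.mem_union_left _ (hT1 0 (Finset.mem_univ _) P hP)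
  have hs3 : ∑ᶠ P, e P = ∑ P ∈ T, e P := by
    rw [finsum_eq_sum_of_support_subset (s := T)]
    intro P hP
    rw [hT]
    exact Finset.mem_union_right _ (hef.mem_toFinset.2 hP)
  have hs4 : ∑ P ∈ T, max (-P.ord (M i j)) 0 ≤ ∑ P ∈ T, h P := by
    refine Finset.sum_le_sum fun P _ => max_le ?_ (h0 P)
    rcases hM' P i j with h2 | h2
    · rw [h2, P.ord_zero]
      simpa using h0 P
    · linarith
  have hs5 := Finset.sum_le_sum (s := T) fun P _ => hle P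
  rw [Finset.sum_sub_distrib, ← Finset.mul_sum, ← Finset.mul_sum, hs1, ← hs3] at hs5
  have hE : 0 ≤ ∑ᶠ P, e P := by
    rw [hs3]
    exact Finset.sum_nonneg fun P _ => he P
  have hH : 0 ≤ ∑ P ∈ T, h P := Finset.sum_nonneg fun P _ => h0 P
  rw [Finset.sum_add_distrib] at hnum
  have hcard' : Fintype.card (Σ a, Ex ρ (dg a)) = ∑ a, Fintype.card (Ex ρ (dg a)) :=
    Fintype.card_sigma
  rw [Fintype.card_empty, zero_add] at hcard
  have hc1 : (1 : ℤ) ≤ (∑ a, cdeg i0 (dg a) : ℕ) - (Fintype.card σ : ℤ) - (Fintype.card τ : ℤ) := by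
    push_cast [Nat.cast_sum]
    have : (m + Fintype.card σ + 1 : ℤ) ≤ (∑ a, cdeg i0 (dg a) : ℕ) +
      (∑ a, Fintype.card (Ex ρ (dg a)) : ℕ) := by exact_mod_cast hnum
    have h2 : (Fintype.card τ : ℤ) + (∑ a, Fintype.card (Ex ρ (dg a)) : ℕ) ≤ m := by
      rw [← hcard']
      exact_mod_cast hcard
    push_cast at this h2 ⊢
    linarith
  have hc2 : (Fintype.card τ : ℤ) + (Fintype.card (Σ a, Ex ρ (dg a)) : ℤ) ≤ m := by
    exact_mod_cast hcard
  rw [hs2]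
  refine hs4.trans ?_
  have hs6 := mul_le_mul_of_nonneg_right hc1 hH
  have hs7 := mul_le_mul_of_nonneg_right hc2 hE
  linarith

end Pool.Agent.Run7.h621.FV
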