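import Pool.Agent.Run7.h621.FV.Duals
import Pool.Agent.Run7.h621.FV.Ineq
import Pool.Agent.Run7.h621.FV.Principle

/-!
Finiteness of the linear subspaces, in a chart.
-/

set_option autoImplicit false

open MvPolynomial FF Pool.Agent.W603.LV

namespace Pool.Agent.Run7.h621.FV

/-- The Plücker coordinates: the maximal minors. -/
def pl {ρ σ R : Type} [Fintype ρ] [DecidableEq ρ] [CommRing R] (M : Matrix ρ σ R) : (ρ → σ) → R :=
  fun c => (M.submatrix id c).det

/-- The field generated by the ratios of the Plücker coordinates. -/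
def plField (k : Type) {ρ σ Ω : Type} [Fintype ρ] [DecidableEq ρ] [Field k] [Field Ω]
    [Algebra k Ω] (M : Matrix ρ σ Ω) : IntermediateField k Ω :=
  IntermediateField.adjoin k {z | ∃ c c', pl M c' ≠ 0 ∧ z = pl M c / pl M c'}

/-- The closed subset of the Grassmannian given by the polynomials in `V` in the Plücker
coordinates has dimension at most `m`. -/
def GrDimLE (k : Type) {ρ σ : Type} [Fintype ρ] [DecidableEq ρ] [Field k]
    (V : Set (MvPolynomial (ρ → σ) k)) (m : ℕ) : Prop :=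
  ∀ (Ω : Type) [Field Ω] [Algebra k Ω] (M : Matrix ρ σ Ω), pl M ≠ 0 →
    (∀ f ∈ V, aeval (pl M) f = 0) → Algebra.trdeg k (plField k M) ≤ m

theorem entry_mem {k ρ σ Ω : Type} [Fintype ρ] [DecidableEq ρ] [DecidableEq σ] [Field k] [Field Ω] [Algebra k Ω]
    {M : Matrix ρ σ Ω} {c0 : ρ → σ} (hM : M.submatrix id c0 = 1) (i : ρ) (j : σ) :
    M i j ∈ plField k M := by
  have h1 : pl M c0 = 1 := by rw [pl, hM, Matrix.det_one]
  apply IntermediateField.subset_adjoin
  refine ⟨Function.update c0 i j, c0, by rw [h1]; exact one_ne_zero, ?_⟩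
  rw [h1, div_one]
  exact entry_eq M hM i j

theorem adjoin_le {k ρ σ Ω : Type} [Fintype ρ] [DecidableEq ρ] [DecidableEq σ] [Field k] [Field Ω] [Algebra k Ω]
    {M : Matrix ρ σ Ω} {c0 : ρ → σ} (hM : M.submatrix id c0 = 1) :
    IntermediateField.adjoin k (Set.range fun p : ρ × σ => M p.1 p.2) ≤ plField k M := by
  rw [IntermediateField.adjoin_le_iff]
  rintro _ ⟨p, rfl⟩
  exact entry_mem hM p.1 p.2

theorem trdeg_chart {k ρ σ Ω : Type} [Fintype ρ] [DecidableEq ρ] [DecidableEq σ] [Field k] [Field Ω] [Algebra k Ω]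
    {V : Set (MvPolynomial (ρ → σ) k)} {m : ℕ} (hV : GrDimLE k V m)
    {M : Matrix ρ σ Ω} {c0 : ρ → σ} (hM : M.submatrix id c0 = 1)
    (hMV : ∀ f ∈ V, aeval (pl M) f = 0) :
    Algebra.trdeg k (IntermediateField.adjoin k (Set.range fun p : ρ × σ => M p.1 p.2)) ≤ m := by
  refine le_trans ?_ (hV Ω M (fun h => ?_) hMV)
  · exact trdeg_le_of_injective (IntermediateField.inclusion (adjoin_le hM))
      (IntermediateField.inclusion_injective _)
  · have h1 := congrFun h c0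
    rw [pl, hM, Matrix.det_one] at h1
    exact one_ne_zero h1

section sys

variable {k0 ρ σ A : Type} [Field k0] [Fintype ρ] [Fintype σ] [DecidableEq ρ] [DecidableEq σ]
  {dg : A → ℕ} (I0 : ∀ a, Ex σ (dg a))

/-- The generic matrix. -/
noncomputable def gM (k0 : Type) [Field k0] : Matrix ρ σ (MvPolynomial ((ρ × σ) ⊕ Bt I0) k0) :=
  Matrix.of fun i j => X (Sum.inl (i, j))

/-- The equations of the matrices. -/
noncomputable def Sys (V : Set (MvPolynomial (ρ → σ) k0)) (c0 : ρ → σ) :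
    Set (MvPolynomial ((ρ × σ) ⊕ Bt I0) k0) :=
  {f | (∃ g ∈ V, f = aeval (pl (gM (ρ := ρ) I0 k0)) g) ∨
    (∃ i j, f = gM I0 k0 i (c0 j) - (1 : Matrix ρ ρ _) i j) ∨
    ∃ a u, f = (eval₂ C (fun j => ∑ i : ρ, C (gM I0 k0 i j) * X i)
      (NF I0 (fun b => X (Sum.inr b)) a)).coeff u}

theorem sys_iff {V : Set (MvPolynomial (ρ → σ) k0)} {c0 : ρ → σ} {Λ : Type} [Field Λ]
    [Algebra k0 Λ] (M : Matrix ρ σ Λ) (c : Bt I0 → Λ) :
    (∀ f ∈ Sys I0 V c0, aeval (Sum.elim (fun p => M p.1 p.2) c) f = 0) ↔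
      (∀ g ∈ V, aeval (pl M) g = 0) ∧ M.submatrix id c0 = 1 ∧ ∀ a, res M (NF I0 c a) = 0 := by
  obtain ⟨φ, hφ⟩ : ∃ φ : MvPolynomial ((ρ × σ) ⊕ Bt I0) k0 →ₐ[k0] Λ,
    φ = aeval (Sum.elim (fun p => M p.1 p.2) c) := ⟨_, rfl⟩
  have hM : ∀ i j, φ (gM I0 k0 i j) = M i j := by
    intro i j
    rw [hφ, gM, Matrix.of_apply, aeval_X]
    rfl
  have hc : ∀ b, φ (X (Sum.inr b)) = c b := by
    intro b
    rw [hφ, aeval_X]
    rfl
  have h1 : ∀ g : MvPolynomial (ρ → σ) k0, φ (aeval (pl (gM (ρ := ρ) I0 k0)) g) =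
      aeval (pl M) g := by
    intro g
    rw [← AlgHom.comp_apply]
    congr 1
    apply MvPolynomial.algHom_ext
    intro c
    rw [AlgHom.comp_apply, aeval_X, aeval_X, pl, pl, AlgHom.map_det]
    congr 1
    ext i j
    exact hM i (c j)
  have h2 : ∀ i j, φ (gM I0 k0 i (c0 j) - (1 : Matrix ρ ρ _) i j) =
      M i (c0 j) - (1 : Matrix ρ ρ Λ) i j := by
    intro i j
    rw [map_sub, hM, Matrix.one_apply, Matrix.one_apply]
    split_ifs
    · rw [map_one]
    · rw [map_zero]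
  have h3 : ∀ a u, φ ((eval₂ C (fun j => ∑ i : ρ, C (gM I0 k0 i j) * X i)
      (NF I0 (fun b => X (Sum.inr b)) a)).coeff u) = (res M (NF I0 c a)).coeff u := by
    intro a u
    have h4 : map (φ : MvPolynomial ((ρ × σ) ⊕ Bt I0) k0 →+* Λ) (eval₂ C (fun j => ∑ i : ρ,
        C (gM I0 k0 i j) * X i) (NF I0 (fun b => X (Sum.inr b)) a)) = res M (NF I0 c a) := by
      have h5 := map_NF I0 (φ : MvPolynomial ((ρ × σ) ⊕ Bt I0) k0 →+* Λ)
        (fun b => X (Sum.inr b)) a
      have h6 : (fun b => (φ : MvPolynomial ((ρ × σ) ⊕ Bt I0) k0 →+* Λ) (X (Sum.inr b))) = c :=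
        funext hc
      rw [h6] at h5
      rw [hom_eval₂, res_def, ← h5, eval₂_map]
      congr 1
      · exact RingHom.ext fun r => map_C _ r
      · funext j
        rw [map_sum]
        refine Finset.sum_congr rfl fun i _ => ?_
        rw [map_mul, map_C, map_X]
        congr 2
        exact hM i j
    rw [← h4, coeff_map]
    rfl
  rw [← hφ]
  constructor
  · intro h
    refine ⟨fun g hg => ?_, ?_, fun a => ?_⟩
    · rw [← h1]
      exact h _ (Or.inl ⟨g, hg, rfl⟩)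
    · ext i j
      rw [Matrix.submatrix_apply, id_eq, ← sub_eq_zero, ← h2]
      exact h _ (Or.inr (Or.inl ⟨i, j, rfl⟩))
    · ext u
      rw [← h3, coeff_zero]
      exact h _ (Or.inr (Or.inr ⟨a, u, rfl⟩))
  · rintro ⟨hV, hc0, hF⟩ f (⟨g, hg, rfl⟩ | ⟨i, j, rfl⟩ | ⟨a, u, rfl⟩)
    · rw [h1]
      exact hV g hg
    · rw [h2, ← hc0, Matrix.submatrix_apply, id_eq, sub_self]
    · rw [h3, hF, coeff_zero]

/-- The height inequality for the matrices. -/
theorem sys_ineq [Fintype A] {V : Set (MvPolynomial (ρ → σ) k0)} {m : ℕ} (hV : GrDimLE k0 V m)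
    (c0 : ρ → σ) (i0 : ρ)
    (hnum : m + Fintype.card σ + 1 ≤ ∑ a, (cdeg i0 (dg a) + Fintype.card (Ex ρ (dg a)))) :
    HtIneq k0 (Sys I0 V c0) (2 * m) := by
  classical
  intro κ Λ _ _ _ _ _ _ _ c δ e x hk hδ he hef hloss hpole hx j
  have hS := (sys_iff I0 (Matrix.of fun i j => x (i, j)) c).1 (fun f hf => by
    have h1 : (Sum.elim (fun p : ρ × σ => (Matrix.of fun i j => x (i, j)) p.1 p.2) c) =
        Sum.elim x c := by
      funext p
      rcases p with p | p
      · rfl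
      · rfl
    rw [h1]
    exact hx f hf)
  obtain ⟨hMV, hM, hF⟩ := hS
  obtain ⟨D, ε, hD, hDr⟩ := exists_DP I0 c δ (fun b b' => (hδ b b').trans (by congr))
  have hDsum : ∀ a I, ∃ r : Bt I0 → Λ, (∀ b, r b = 0 ∨ r b = 1 ∨ r b = - c b) ∧
      ∀ f, D a I f = ∑ b, r b * δ b f := by
    intro a I
    obtain ⟨r, hr, hr'⟩ := hDr a I
    exact ⟨r, hr, fun f => by rw [hr' f, finsum_eq_sum_of_fintype]⟩
  have h1 := hgt_ineq (k0 := k0) (κ := κ) (m := m) (e := fun P => 2 * e P) hD (fun a I r => by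
      obtain ⟨s, -, hs⟩ := hDsum a I
      rw [hs]
      exact Finset.sum_eq_zero fun b _ => by rw [hk, mul_zero]) (fun P => by
      have := he P
      omega) (by
      refine hef.subset fun P hP => ?_
      intro h
      apply hP
      rw [h, mul_zero]) (fun P f hf a I => by
      obtain ⟨s, hs0, hs⟩ := hDsum a I
      rw [hs]
      refine Ge.sum _ _ fun b _ => ?_
      have h2 : Ge P (-e P) (s b) := by
        have h3 := he P
        rcases hs0 b with h | h | h
        · rw [h]; exact Ge.zero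
        · rw [h]; exact Ge.one.mono (by omega)
        · rw [h]; exact (hpole P b).neg
      exact (h2.mul (hloss P f hf b)).mono (by omega)) hM hF (trdeg_chart hV hM hMV) i0 hnum j.1 j.2
  have h2 : ∑ᶠ P, 2 * e P = 2 * ∑ᶠ P, e P := by
    rw [mul_finsum]
  rw [h2] at h1
  refine h1.trans (le_of_eq ?_)
  push_cast
  ring

end sys

end Pool.Agent.Run7.h621.FV
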