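import Pool.Agent.Run7.h621.FV.Row

/-!
The differential of a form along a matrix.
-/

set_option autoImplicit false

open MvPolynomial

namespace Pool.Agent.Run7.h621.FV

section cd

variable {π L : Type} [Field L]

/-- The derivation of the coefficients. -/
noncomputable def cd (δ : Derivation ℤ L L) (P : MvPolynomial π L) : MvPolynomial π L :=
  ∑ u ∈ P.support, monomial u (δ (P.coeff u))

theorem coeff_cd (δ : Derivation ℤ L L) (P : MvPolynomial π L) (u : π →₀ ℕ) :
    (cd δ P).coeff u = δ (P.coeff u) := by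
  classical
  rw [cd, coeff_sum]
  simp only [coeff_monomial]
  rw [Finset.sum_ite_eq']
  split_ifs with h
  · rfl
  · rw [notMem_support_iff.1 h, map_zero]

theorem cd_add (δ : Derivation ℤ L L) (P Q : MvPolynomial π L) :
    cd δ (P + Q) = cd δ P + cd δ Q := by
  ext u
  rw [coeff_cd, coeff_add, coeff_add, coeff_cd, coeff_cd, map_add]

theorem cd_zero (δ : Derivation ℤ L L) : cd δ (0 : MvPolynomial π L) = 0 := by
  ext u
  rw [coeff_cd, coeff_zero, map_zero]

theorem cd_mul (δ : Derivation ℤ L L) (P Q : MvPolynomial π L) :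
    cd δ (P * Q) = P * cd δ Q + Q * cd δ P := by
  classical
  ext u
  rw [coeff_cd, coeff_add, mul_comm Q, coeff_mul, coeff_mul, coeff_mul, map_sum,
    ← Finset.sum_add_distrib]
  refine Finset.sum_congr rfl fun p _ => ?_
  rw [δ.leibniz, coeff_cd, coeff_cd, smul_eq_mul, smul_eq_mul]
  ring

theorem cd_C (δ : Derivation ℤ L L) (a : L) : cd δ (C a : MvPolynomial π L) = C (δ a) := by
  classical
  ext u
  rw [coeff_cd, coeff_C, coeff_C]
  split_ifs
  · rfl
  · rw [map_zero]

theorem cd_X (δ : Derivation ℤ L L) (i : π) : cd δ (X i : MvPolynomial π L) = 0 := by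
  classical
  ext u
  rw [coeff_cd, coeff_X', coeff_zero]
  split_ifs
  · rw [δ.map_one_eq_zero]
  · rw [map_zero]

/-- The chain rule. -/
theorem chain {σ R : Type} [Fintype σ] [CommRing R] (d : R → R) (hadd : ∀ x y, d (x + y) = d x + d y)
    (hmul : ∀ x y, d (x * y) = x * d y + y * d x) (φ : L →+* R)
    (δ : Derivation ℤ L L) (h : ∀ a, d (φ a) = φ (δ a)) (y : σ → R) (F : MvPolynomial σ L) :
    d (eval₂ φ y F) = eval₂ φ y (cd δ F) + ∑ j, eval₂ φ y (pderiv j F) * d (y j) := by
  classical
  induction F using MvPolynomial.induction_on with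
  | C a =>
    rw [cd_C, eval₂_C, eval₂_C, h, Finset.sum_eq_zero fun j _ => by
      rw [pderiv_C, eval₂_zero, zero_mul], add_zero]
  | add P Q hP hQ =>
    rw [cd_add, eval₂_add, eval₂_add, hadd, hP, hQ]
    simp only [map_add, eval₂_add, add_mul, Finset.sum_add_distrib]
    ring
  | mul_X P j hP =>
    rw [cd_mul, cd_X, mul_zero, zero_add, eval₂_mul, eval₂_mul, eval₂_X, hmul, hP,
      mul_add, Finset.mul_sum]
    have h1 : ∀ i, eval₂ φ y (pderiv i (P * X j)) * d (y i) =
        y j * (eval₂ φ y (pderiv i P) * d (y i)) +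
          if i = j then eval₂ φ y P * d (y j) else 0 := by
      intro i
      rw [pderiv_mul, pderiv_X, eval₂_add, eval₂_mul, eval₂_mul, eval₂_X]
      by_cases hij : i = j
      · subst hij
        rw [Pi.single_eq_same, if_pos rfl]
        simp only [eval₂_one]
        ring
      · rw [if_neg hij, Pi.single_eq_of_ne (Ne.symm hij), eval₂_zero]
        ring
    rw [Finset.sum_congr rfl fun i _ => h1 i, Finset.sum_add_distrib,
      Finset.sum_ite_eq' Finset.univ j, if_pos (Finset.mem_univ _)]
    ring

theorem add_sum {R ι : Type} [CommRing R] (d : R → R)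
    (hadd : ∀ x y, d (x + y) = d x + d y) (s : Finset ι) (f : ι → R) :
    d (∑ i ∈ s, f i) = ∑ i ∈ s, d (f i) := by
  classical
  have h0 : d 0 = 0 := by
    have := hadd 0 0
    rw [add_zero] at this
    exact left_eq_add.1 this
  induction s using Finset.induction_on with
  | empty => rw [Finset.sum_empty, Finset.sum_empty, h0]
  | insert a s ha ih => rw [Finset.sum_insert ha, Finset.sum_insert ha, hadd, ih]

end cd

section Phi

variable {ρ σ A L : Type} [Fintype ρ] [Fintype σ] [DecidableEq ρ] [DecidableEq σ] [Field L]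

/-- The differential of a form along a matrix, restricted to the row space. -/
noncomputable def Phi (M : Matrix ρ σ L) (G : MvPolynomial σ L) :
    Matrix ρ σ L →ₗ[L] MvPolynomial ρ L where
  toFun Z := ∑ j, res M (pderiv j G) * ∑ i, C (Z i j) * X i
  map_add' Y Z := by
    rw [← Finset.sum_add_distrib]
    refine Finset.sum_congr rfl fun j _ => ?_
    rw [← mul_add, ← Finset.sum_add_distrib]
    congr 1
    refine Finset.sum_congr rfl fun i _ => ?_
    rw [Matrix.add_apply, C_add, add_mul]
  map_smul' r Z := by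
    rw [RingHom.id_apply, Finset.smul_sum]
    refine Finset.sum_congr rfl fun j _ => ?_
    rw [← mul_smul_comm, Finset.smul_sum]
    congr 1
    refine Finset.sum_congr rfl fun i _ => ?_
    rw [Matrix.smul_apply, smul_eq_mul, C_mul, smul_eq_C_mul, mul_assoc]

theorem Phi_apply (M : Matrix ρ σ L) (G : MvPolynomial σ L) (Z : Matrix ρ σ L) :
    Phi M G Z = ∑ j, res M (pderiv j G) * ∑ i, C (Z i j) * X i := rfl

theorem res_def (M : Matrix ρ σ L) (G : MvPolynomial σ L) :
    res M G = eval₂ C (fun j => ∑ i, C (M i j) * X i) G := by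
  rw [res, aeval_def, algebraMap_eq]

theorem Phi_der (M : Matrix ρ σ L) {G : MvPolynomial σ L} (hG : res M G = 0)
    (δ : Derivation ℤ L L) : Phi M G (M.map δ) = - res M (cd δ G) := by
  have h1 := chain (cd (π := ρ) δ) (cd_add δ) (cd_mul δ) C δ (fun a => by rw [cd_C])
    (fun j => ∑ i, C (M i j) * X i) G
  rw [← res_def, hG, cd_zero, ← res_def] at h1
  have h2 : ∀ j, cd (π := ρ) δ (∑ i, C (M i j) * X i) = ∑ i, C ((M.map δ) i j) * X i := by
    intro j
    rw [add_sum _ (cd_add δ)]
    refine Finset.sum_congr rfl fun i _ => ?_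
    rw [cd_mul, cd_X, cd_C, mul_zero, zero_add, Matrix.map_apply, mul_comm]
  rw [Phi_apply, eq_neg_iff_add_eq_zero, add_comm, h1]
  congr 1
  refine Finset.sum_congr rfl fun j _ => ?_
  rw [res_def, h2]

theorem Phi_mul (M : Matrix ρ σ L) {G : MvPolynomial σ L} (hG : res M G = 0)
    (Z : Matrix ρ ρ L) : Phi M G (Z * M) = 0 := by
  have h1 : ∀ k : ρ, ∑ j, res M (pderiv j G) * C (M k j) = 0 := by
    intro k
    have h2 := chain (fun P : MvPolynomial ρ L => pderiv k P) (fun x y => map_add _ x y)
      (fun x y => by rw [pderiv_mul]; ring) C 0 (fun a => by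
        rw [pderiv_C]
        exact (map_zero _).symm) (fun j => ∑ i, C (M i j) * X i) G
    have h3 : cd (0 : Derivation ℤ L L) G = 0 := by
      ext u
      rw [coeff_cd, coeff_zero]
      rfl
    rw [← res_def, hG, map_zero, h3, eval₂_zero, zero_add] at h2
    rw [h2]
    refine Finset.sum_congr rfl fun j _ => ?_
    rw [res_def]
    congr 1
    rw [map_sum, Finset.sum_eq_single k]
    · rw [pderiv_C_mul, pderiv_X_self, mul_one]
    · intro i _ hi
      rw [pderiv_C_mul, pderiv_X_of_ne hi, mul_zero]
    · intro h; exact absurd (Finset.mem_univ _) h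
  have h2 : Phi M G (Z * M) = ∑ k, (∑ i, C (Z i k) * X i) * ∑ j, res M (pderiv j G) * C (M k j) := by
    rw [Phi_apply]
    have h3 : ∀ j, ∑ i, C ((Z * M) i j) * X i = ∑ k, (∑ i, C (Z i k) * X i) *
        (C (M k j) : MvPolynomial ρ L) := by
      intro j
      simp only [Matrix.mul_apply, map_sum, Finset.sum_mul, C_mul]
      rw [Finset.sum_comm]
      refine Finset.sum_congr rfl fun k _ => Finset.sum_congr rfl fun i _ => ?_
      ring
    simp only [h3, Finset.mul_sum]
    rw [Finset.sum_comm]
    refine Finset.sum_congr rfl fun k _ => Finset.sum_congr rfl fun j _ => ?_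
    ring
  rw [h2]
  exact Finset.sum_eq_zero fun k _ => by rw [h1, mul_zero]

open scoped Classical in
/-- The derivations are dual to the coefficients of the forms, up to multiples of the forms. -/
def DualP (F : A → MvPolynomial σ L) (dg : A → ℕ) (D : A → (σ →₀ ℕ) → Derivation ℤ L L)
    (ε : A → (σ →₀ ℕ) → L) : Prop :=
  ∀ a b I, I.degree = dg a → cd (D a I) (F b) =
    if a = b then monomial I 1 - ε a I • F b else 0

theorem Phi_Dm {F : A → MvPolynomial σ L} {dg : A → ℕ} {D : A → (σ →₀ ℕ) → Derivation ℤ L L}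
    {ε : A → (σ →₀ ℕ) → L} (hD : DualP F dg D ε) {M : Matrix ρ σ L}
    (hF : ∀ a, res M (F a) = 0) (a b : A) {P : MvPolynomial σ L} (hP : P.IsHomogeneous (dg a)) :
    (a = b → Phi M (F b) (Dm (D a) M P) = - res M P) ∧
      (a ≠ b → Phi M (F b) (Dm (D a) M P) = 0) := by
  classical
  have h1 : ∀ u ∈ P.support, Phi M (F b) (M.map (D a u)) =
      if a = b then - res M (monomial u 1) else 0 := by
    intro u hu
    have h2 : u.degree = dg a := by
      rw [Finsupp.degree_eq_weight_one]
      exact hP (mem_support_iff.1 hu)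
    rw [Phi_der M (hF b), hD a b u h2]
    split_ifs
    · rw [map_sub, map_smul, hF, smul_zero, sub_zero]
    · rw [map_zero, neg_zero]
  rw [Dm_apply, map_sum]
  have h2 : ∑ u ∈ P.support, Phi M (F b) (P.coeff u • M.map (D a u)) =
      ∑ u ∈ P.support, P.coeff u • (if a = b then - res M (monomial u 1) else 0) :=
    Finset.sum_congr rfl fun u hu => by rw [map_smul, h1 u hu]
  rw [h2]
  refine ⟨fun h => ?_, fun h => ?_⟩
  · simp only [if_pos h, smul_neg, Finset.sum_neg_distrib]
    congr 1
    conv_rhs => rw [P.as_sum]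
    rw [map_sum]
    refine Finset.sum_congr rfl fun u _ => ?_
    have h3 : monomial u (P.coeff u) = P.coeff u • monomial u (1 : L) := by
      rw [smul_monomial, smul_eq_mul, mul_one]
    rw [h3, map_smul]
  · simp only [if_neg h, smul_zero, Finset.sum_const_zero]

end Phi

end Pool.Agent.Run7.h621.FV
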