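import Pool.Agent.Run7.h621.FV.Row

/-!
The change of the derivations.
-/

set_option autoImplicit false

open MvPolynomial

namespace Pool.Agent.Run7.h621.FV

variable {ρ σ A X τ υ L : Type} [Fintype ρ] [Fintype σ] [DecidableEq ρ] [DecidableEq σ] [Field L]
  [Fintype X]

omit [Fintype ρ] [Fintype σ] [DecidableEq ρ] [DecidableEq σ] in
theorem Dm_diff {D1 D2 : (σ →₀ ℕ) → Derivation ℤ L L} {E : X → Derivation ℤ L L}
    {r : (σ →₀ ℕ) → X → L} (h : ∀ I f, D1 I f = D2 I f + ∑ j, r I j * E j f) (M : Matrix ρ σ L)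
    (Q : MvPolynomial σ L) :
    Dm D1 M Q = Dm D2 M Q + ∑ j, (∑ u ∈ Q.support, Q.coeff u * r u j) • M.map (E j) := by
  rw [Dm_apply, Dm_apply]
  ext a b
  rw [Matrix.add_apply, Matrix.sum_apply, Matrix.sum_apply, Matrix.sum_apply]
  simp only [Matrix.smul_apply, Matrix.map_apply, smul_eq_mul, h, mul_add, Finset.mul_sum,
    Finset.sum_mul, Finset.sum_add_distrib]
  congr 1
  rw [Finset.sum_comm]
  refine Finset.sum_congr rfl fun j _ => Finset.sum_congr rfl fun u _ => ?_
  ring

variable {dg : A → ℕ} {D1 D2 : A → (σ →₀ ℕ) → Derivation ℤ L L} {E1 E2 : X → Derivation ℤ L L}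
  {t : τ → A × MvPolynomial σ L}

omit [Fintype ρ] [Fintype σ] [DecidableEq ρ] [DecidableEq σ] in
theorem map_comb {B : X → L} {δ : Derivation ℤ L L} (h : ∀ f, δ f = ∑ j, B j * E2 j f)
    (M : Matrix ρ σ L) : M.map δ = ∑ j, B j • M.map (E2 j) := by
  ext a b
  rw [Matrix.sum_apply, Matrix.map_apply, h]
  rfl

omit [Fintype σ] [DecidableEq σ] in
/-- The change of the derivations, for the spans. -/
theorem spans_change {B : X → X → L} (hE : ∀ i f, E1 i f = ∑ j, B i j * E2 j f)
    {r : A → (σ →₀ ℕ) → X → L} (hD : ∀ a I f, D1 a I f = D2 a I f + ∑ j, r a I j * E2 j f)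
    {M : Matrix ρ σ L} (h : Spans dg D1 E1 t M) : Spans dg D2 E2 t M := by
  have hX : ∀ z : X → L, ∑ j, z j • M.map (E2 j) ∈ Submodule.span L (Set.range (brow D2 E2 t M)) :=
    fun z => Submodule.sum_mem _ fun j _ => Submodule.smul_mem _ _
      (Submodule.subset_span ⟨Sum.inr (Sum.inl j), rfl⟩)
  have h1 : Submodule.span L (Set.range (brow D1 E1 t M)) ≤
      Submodule.span L (Set.range (brow D2 E2 t M)) := by
    rw [Submodule.span_le]
    rintro _ ⟨(p | ξ | x), rfl⟩
    · exact Submodule.subset_span ⟨Sum.inl p, rfl⟩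
    · change M.map (E1 ξ) ∈ Submodule.span L (Set.range (brow D2 E2 t M))
      rw [map_comb (hE ξ) M]
      exact hX _
    · change Dm (D1 (t x).1) M (t x).2 ∈ Submodule.span L (Set.range (brow D2 E2 t M))
      rw [Dm_diff (hD (t x).1) M]
      exact add_mem (Submodule.subset_span ⟨Sum.inr (Sum.inr x), rfl⟩) (hX _)
  intro a P hP hP0
  have h2 := h1 (h a P hP hP0)
  rw [Dm_diff (hD a) M] at h2
  have h3 := sub_mem h2 (hX fun j => ∑ u ∈ P.support, P.coeff u * r a u j)
  rwa [add_sub_cancel_right] at h3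

/-- The change of the derivations, for the determinants. -/
theorem dt_change [Fintype A] [Fintype τ] [Fintype υ] [DecidableEq A] [DecidableEq X]
    [DecidableEq τ] [DecidableEq υ] (e : ρ × σ ≃ ((ρ × ρ) ⊕ (X ⊕ τ)) ⊕ ((Σ a, Ex ρ (dg a)) ⊕ υ))
    {B : Matrix X X L} (hE : ∀ i f, E1 i f = ∑ j, B i j * E2 j f)
    {r : A → (σ →₀ ℕ) → X → L} (hD : ∀ a I f, D1 a I f = D2 a I f + ∑ j, r a I j * E2 j f)
    (c : ρ → σ) (s : υ → Matrix ρ σ L) (M : Matrix ρ σ L) :
    dt e (row dg D1 E1 t c s M) = B.det * dt e (row dg D2 E2 t c s M) := by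
  rw [dt_tri e (v' := row dg D2 E2 t c s M) (Matrix.fromBlocks 1 0 0 (Matrix.fromBlocks B 0
    (Matrix.of fun x j => ∑ u ∈ (t x).2.support, (t x).2.coeff u * r (t x).1 u j) 1)) 1]
  · rw [Matrix.det_fromBlocks_zero₁₂, Matrix.det_fromBlocks_zero₁₂, Matrix.det_one, Matrix.det_one,
      Matrix.det_one, one_mul, mul_one, mul_one]
  · rintro (p | ξ | x)
    · rw [Fintype.sum_sum_type]
      simp only [Matrix.fromBlocks_apply₁₁, Matrix.fromBlocks_apply₁₂, Matrix.zero_apply, zero_smul,
        Finset.sum_const_zero, add_zero]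
      rw [Finset.sum_eq_single p]
      · rw [Matrix.one_apply_eq, one_smul]
        rfl
      · intro q _ hq
        rw [Matrix.one_apply_ne (Ne.symm hq), zero_smul]
      · intro h; exact absurd (Finset.mem_univ _) h
    · rw [Fintype.sum_sum_type, Fintype.sum_sum_type]
      simp only [Matrix.fromBlocks_apply₂₁, Matrix.fromBlocks_apply₂₂, Matrix.fromBlocks_apply₁₁,
        Matrix.fromBlocks_apply₁₂, Matrix.zero_apply, zero_smul,
        Finset.sum_const_zero, add_zero, zero_add]
      exact map_comb (hE ξ) M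
    · rw [Fintype.sum_sum_type, Fintype.sum_sum_type]
      simp only [Matrix.fromBlocks_apply₂₁, Matrix.fromBlocks_apply₂₂, Matrix.zero_apply, zero_smul,
        Finset.sum_const_zero, zero_add, Matrix.of_apply]
      rw [Finset.sum_eq_single (a := x) (s := (Finset.univ : Finset τ))]
      · rw [Matrix.one_apply_eq, one_smul, add_comm]
        exact Dm_diff (hD (t x).1) M _
      · intro q _ hq
        rw [Matrix.one_apply_ne (Ne.symm hq), zero_smul]
      · intro h; exact absurd (Finset.mem_univ _) h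
  · have hX : ∀ z : X → L, ∑ j, z j • M.map (E2 j) ∈
        Submodule.span L (Set.range fun j => row dg D2 E2 t c s M (Sum.inl j)) :=
      fun z => Submodule.sum_mem _ fun j _ => Submodule.smul_mem _ _
        (Submodule.subset_span ⟨Sum.inr (Sum.inl j), rfl⟩)
    intro i
    have h1 : ∑ j, (1 : Matrix ((Σ a, Ex ρ (dg a)) ⊕ υ) _ L) i j •
        row dg D2 E2 t c s M (Sum.inr j) = row dg D2 E2 t c s M (Sum.inr i) := by
      rw [Finset.sum_eq_single i]
      · rw [Matrix.one_apply_eq, one_smul]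
      · intro q _ hq
        rw [Matrix.one_apply_ne (Ne.symm hq), zero_smul]
      · intro h; exact absurd (Finset.mem_univ _) h
    rw [h1]
    rcases i with p | y
    · change Dm (D1 p.1) M (rename c (monomial p.2.1 1)) -
        Dm (D2 p.1) M (rename c (monomial p.2.1 1)) ∈ _
      rw [Dm_diff (hD p.1) M, add_sub_cancel_left]
      exact hX _
    · change s y - s y ∈ _
      rw [sub_self]
      exact zero_mem _

end Pool.Agent.Run7.h621.FV
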