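import Pool.Agent.Run7.h621.FV.Chain

/-!
The forms with one coefficient equal to one, and the dual derivations.
-/

set_option autoImplicit false

open MvPolynomial

namespace Pool.Agent.Run7.h621.FV

variable {σ A : Type} [Fintype σ] {dg : A → ℕ} (I0 : ∀ a, Ex σ (dg a))

/-- The indices of the coefficients that are not one. -/
abbrev Bt : Type := (a : A) × {I : Ex σ (dg a) // I ≠ I0 a}

open scoped Classical in
/-- The coefficients. -/
noncomputable def cc {R : Type} [CommRing R] (c : Bt I0 → R) (a : A) (I : Ex σ (dg a)) : R :=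
  if h : I = I0 a then 1 else c ⟨a, I, h⟩

/-- The forms. -/
noncomputable def NF {R : Type} [CommRing R] (c : Bt I0 → R) (a : A) : MvPolynomial σ R :=
  ∑ I : Ex σ (dg a), monomial I.1 (cc I0 c a I)

theorem coeff_NF {R : Type} [CommRing R] (c : Bt I0 → R) (a : A) (I : Ex σ (dg a)) :
    (NF I0 c a).coeff I.1 = cc I0 c a I := by
  classical
  rw [NF, coeff_sum, Finset.sum_eq_single I]
  · rw [coeff_monomial, if_pos rfl]
  · intro J _ hJ
    rw [coeff_monomial, if_neg fun h => hJ (Subtype.ext h)]
  · intro h; exact absurd (Finset.mem_univ _) h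

theorem coeff_NF' {R : Type} [CommRing R] (c : Bt I0 → R) (a : A) (u : σ →₀ ℕ)
    (hu : u.degree ≠ dg a) : (NF I0 c a).coeff u = 0 := by
  classical
  rw [NF, coeff_sum]
  refine Finset.sum_eq_zero fun J _ => ?_
  rw [coeff_monomial, if_neg]
  rintro rfl
  exact hu J.2

theorem NF_hom {R : Type} [CommRing R] (c : Bt I0 → R) (a : A) :
    (NF I0 c a).IsHomogeneous (dg a) :=
  IsHomogeneous.sum _ _ _ fun I _ => isHomogeneous_monomial _ I.2

theorem map_NF {R S : Type} [CommRing R] [CommRing S] (φ : R →+* S) (c : Bt I0 → R) (a : A) :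
    map φ (NF I0 c a) = NF I0 (fun b => φ (c b)) a := by
  rw [NF, NF, map_sum]
  refine Finset.sum_congr rfl fun I _ => ?_
  rw [map_monomial, cc, cc]
  split_ifs
  · rw [map_one]
  · rfl

variable {L : Type} [Field L]

open scoped Classical in
/-- The dual derivations. -/
theorem exists_DP [Finite A] (c : Bt I0 → L) (δ : Bt I0 → Derivation ℤ L L)
    (hδ : ∀ b b', δ b (c b') = if b = b' then 1 else 0) :
    ∃ (D : A → (σ →₀ ℕ) → Derivation ℤ L L) (ε : A → (σ →₀ ℕ) → L),
      DualP (NF I0 c) dg D ε ∧ ∀ a I, ∃ r : Bt I0 → L,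
        (∀ b, r b = 0 ∨ r b = 1 ∨ r b = - c b) ∧ ∀ f, D a I f = ∑ᶠ b, r b * δ b f := by
  have := Fintype.ofFinite A
  obtain ⟨r, hr⟩ : ∃ r : ∀ a, Ex σ (dg a) → Bt I0 → L, ∀ a j p, r a j p =
      if h : j = I0 a then (if p.1 = a then - c p else 0) else
        (if p = ⟨a, j, h⟩ then 1 else 0) := ⟨_, fun _ _ _ => rfl⟩
  obtain ⟨D, hD⟩ : ∃ D : A → (σ →₀ ℕ) → Derivation ℤ L L, ∀ a I, D a I =
      if h : I.degree = dg a then ∑ p, r a ⟨I, h⟩ p • δ p else 0 := ⟨_, fun _ _ => rfl⟩
  have hDf : ∀ a (I : Ex σ (dg a)) f, D a I.1 f = ∑ p, r a I p * δ p f := by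
    intro a I f
    rw [hD, dif_pos I.2, ← Derivation.coeFnAddMonoidHom_apply, map_sum, Finset.sum_apply]
    rfl
  obtain ⟨ε, hε⟩ : ∃ ε : A → (σ →₀ ℕ) → L, ∀ a I, ε a I = if I = (I0 a).1 then 1 else 0 :=
    ⟨_, fun _ _ => rfl⟩
  refine ⟨D, ε, fun a b I hI => ?_, fun a I => ?_⟩
  · have hT : (if a = a then monomial I (1 : L) - ε a I • NF I0 c a else 0) =
      monomial I 1 - ε a I • NF I0 c a := if_pos rfl
    have hDI : ∀ f, D a I f = ∑ p, r a ⟨I, hI⟩ p * δ p f := fun f => hDf a ⟨I, hI⟩ f
    ext u
    rw [coeff_cd]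
    by_cases hu : u.degree = dg b
    · have h1 : (NF I0 c b).coeff u = cc I0 c b ⟨u, hu⟩ := coeff_NF I0 c b ⟨u, hu⟩
      rw [h1, cc]
      by_cases hu0 : (⟨u, hu⟩ : Ex σ (dg b)) = I0 b
      · rw [dif_pos hu0, (D a I).map_one_eq_zero]
        by_cases hab : a = b
        · subst hab
          rw [hT, coeff_sub, coeff_smul, h1, cc, dif_pos hu0, smul_eq_mul, mul_one,
            coeff_monomial, hε]
          have h2 : u = (I0 a).1 := congrArg Subtype.val hu0
          by_cases hIu : I = u
          · rw [if_pos hIu, if_pos (hIu.trans h2), sub_self]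
          · rw [if_neg hIu, if_neg (fun h => hIu (Eq.trans h h2.symm)), sub_self]
        · rw [if_neg hab, coeff_zero]
      · rw [dif_neg hu0, hDI, Finset.sum_eq_single ⟨b, ⟨u, hu⟩, hu0⟩]
        · rw [hδ, if_pos rfl, mul_one, hr]
          by_cases hab : a = b
          · subst hab
            rw [hT, coeff_sub, coeff_smul, h1, cc, dif_neg hu0, smul_eq_mul,
              coeff_monomial, hε]
            by_cases hI0 : (⟨I, hI⟩ : Ex σ (dg a)) = I0 a
            · have h2 : I = (I0 a).1 := congrArg Subtype.val hI0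
              rw [dif_pos hI0, if_pos rfl, if_pos h2, one_mul, if_neg, zero_sub]
              rintro rfl
              exact hu0 hI0
            · have h2 : I ≠ (I0 a).1 := fun h => hI0 (Subtype.ext h)
              rw [dif_neg hI0, if_neg h2, zero_mul, sub_zero]
              by_cases hIu : I = u
              · subst hIu
                rw [if_pos rfl, if_pos rfl]
              · rw [if_neg hIu, if_neg]
                intro h
                have h3 := eq_of_heq (Sigma.mk.inj_iff.1 h).2
                have h4 := congrArg (fun z => z.1.1) h3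
                exact hIu h4.symm
          · rw [if_neg hab, coeff_zero]
            by_cases hI0 : (⟨I, hI⟩ : Ex σ (dg a)) = I0 a
            · rw [dif_pos hI0, if_neg (Ne.symm hab)]
            · rw [dif_neg hI0, if_neg]
              intro h
              exact hab (congrArg Sigma.fst h).symm
        · intro p _ hp
          rw [hδ, if_neg hp, mul_zero]
        · intro h; exact absurd (Finset.mem_univ _) h
    · rw [coeff_NF' I0 c b u hu, map_zero]
      by_cases hab : a = b
      · subst hab
        rw [hT, coeff_sub, coeff_smul, coeff_NF' I0 c a u hu, smul_zero, sub_zero,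
          coeff_monomial, if_neg]
        rintro rfl
        exact hu hI
      · rw [if_neg hab, coeff_zero]
  · by_cases hI : I.degree = dg a
    · refine ⟨r a ⟨I, hI⟩, fun b => ?_, fun f => ?_⟩
      · rw [hr]
        split_ifs
        · exact Or.inr (Or.inr rfl)
        · exact Or.inl rfl
        · exact Or.inr (Or.inl rfl)
        · exact Or.inl rfl
      · rw [finsum_eq_sum_of_fintype]
        exact hDf a ⟨I, hI⟩ f
    · refine ⟨fun _ => 0, fun b => Or.inl rfl, fun f => ?_⟩
      rw [hD, dif_neg hI]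
      simp

end Pool.Agent.Run7.h621.FV
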