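import Pool.Agent.Run7.h621.FV.Chain

/-!
The choice of the rows.
-/

set_option autoImplicit false

open MvPolynomial

namespace Pool.Agent.Run7.h621.FV

/-- The extension of an independent family. -/
theorem ext_family {L V ι κ : Type} [Field L] [AddCommGroup V] [Module L V]
    [FiniteDimensional L V] {v : ι → V} (hv : LinearIndependent L v) (w : κ → V) :
    ∃ (τ : Type) (_ : Fintype τ) (_ : DecidableEq τ) (f : τ → κ),
      LinearIndependent L (Sum.elim v (w ∘ f)) ∧
      ∀ k, w k ∈ Submodule.span L (Set.range (Sum.elim v (w ∘ f))) := by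
  classical
  obtain ⟨b, hb, hsb, htb, hbi⟩ := exists_linearIndepOn_id_extension hv.linearIndepOn_id
    (Set.subset_union_left (s := Set.range v) (t := Set.range w))
  have hbf : b.Finite := LinearIndependent.setFinite hbi
  have hf : ∀ x : ↥(b \ Set.range v), ∃ k, w k = x := by
    rintro ⟨x, hx, hx'⟩
    rcases hb hx with h | h
    · exact absurd h hx'
    · exact h
  choose f hf using hf
  have hfin : Finite ↥(b \ Set.range v) := (hbf.subset Set.sdiff_subset).to_subtype
  have hrange : Set.range (Sum.elim v (w ∘ f)) = b := by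
    rw [Set.Sum.elim_range]
    ext x
    constructor
    · rintro (h | ⟨y, rfl⟩)
      · exact hsb h
      · rw [Function.comp_apply, hf]
        exact y.2.1
    · intro hx
      by_cases h : x ∈ Set.range v
      · exact Or.inl h
      · refine Or.inr ⟨⟨x, hx, h⟩, ?_⟩
        rw [Function.comp_apply, hf]
  have hinj : Function.Injective (Sum.elim v (w ∘ f)) := by
    rw [Sum.elim_injective]
    refine ⟨hv.injective, fun x y h => ?_, fun i x h => ?_⟩
    · rw [Function.comp_apply, Function.comp_apply, hf, hf] at h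
      exact Subtype.ext h
    · rw [Function.comp_apply, hf] at h
      exact x.2.2 ⟨i, h⟩
  refine ⟨↥(b \ Set.range v), Fintype.ofFinite _, Classical.decEq _, f, ?_, fun k => ?_⟩
  · rw [← linearIndepOn_id_range_iff hinj, hrange]
    exact hbi
  · rw [hrange]
    exact htb (Or.inr ⟨k, rfl⟩)

theorem sum_indep {L V W ι κ : Type} [Field L] [AddCommGroup V] [Module L V] [AddCommGroup W]
    [Module L W] (f : V →ₗ[L] W) {v : ι → V} (hv : LinearIndependent L v) (hv0 : ∀ i, f (v i) = 0)
    {w : κ → V} (hw : LinearIndependent L (fun k => f (w k))) :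
    LinearIndependent L (Sum.elim v w) := by
  refine hv.sum_type (hw.of_comp f) ?_
  rw [Submodule.disjoint_def]
  intro x hx hx'
  have h1 : f x = 0 := by
    have h2 : Submodule.span L (Set.range v) ≤ LinearMap.ker f := by
      rw [Submodule.span_le]
      rintro _ ⟨i, rfl⟩
      exact hv0 i
    exact h2 hx
  rw [Finsupp.mem_span_range_iff_exists_finsupp] at hx'
  obtain ⟨c, rfl⟩ := hx'
  rw [linearIndependent_iff] at hw
  have h3 := hw c (by
    rw [Finsupp.linearCombination_apply]
    rw [map_finsuppSum] at h1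
    rw [← h1]
    refine Finsupp.sum_congr fun i _ => ?_
    rw [map_smul])
  rw [h3, Finsupp.sum_zero_index]

variable {ρ σ A X L : Type} [Fintype ρ] [Fintype σ] [DecidableEq ρ] [DecidableEq σ] [Field L]

theorem single_indep (L : Type) [Field L] : LinearIndependent L
    (fun p : ρ × σ => (Matrix.single p.1 p.2 1 : Matrix ρ σ L)) := by
  have h1 := (Matrix.stdBasis L ρ σ).linearIndependent
  have h2 : (fun p : ρ × σ => (Matrix.single p.1 p.2 1 : Matrix ρ σ L)) = Matrix.stdBasis L ρ σ := by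
    funext p
    exact (Matrix.stdBasis_eq_single L p.1 p.2).symm
  rw [h2]
  exact h1

omit [Fintype σ] [DecidableEq σ] in
theorem base_indep {E : X → Derivation ℤ L L} {M : Matrix ρ σ L} {c0 : ρ → σ}
    (hM : M.submatrix id c0 = 1) (hX : LinearIndependent L (fun ξ => M.map (E ξ))) :
    LinearIndependent L (Sum.elim (fun p : ρ × ρ => Matrix.single p.1 p.2 (1 : L) * M)
      (fun ξ : X => M.map (E ξ))) := by
  obtain ⟨f, hf⟩ : ∃ f : Matrix ρ σ L →ₗ[L] Matrix ρ ρ L, ∀ Z, f Z = Z.submatrix id c0 :=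
    ⟨{ toFun := fun Z => Z.submatrix id c0
       map_add' := fun _ _ => rfl
       map_smul' := fun _ _ => rfl }, fun _ => rfl⟩
  have h1 := sum_indep f hX (fun ξ => by
    have h2 : (M.map (E ξ)).submatrix id c0 = (M.submatrix id c0).map (E ξ) := rfl
    rw [hf, h2, hM]
    ext i j
    rw [Matrix.map_apply, Matrix.one_apply, Matrix.zero_apply]
    split_ifs
    · rw [(E ξ).map_one_eq_zero]
    · rw [map_zero]) (w := fun p : ρ × ρ => Matrix.single p.1 p.2 (1 : L) * M) (by
    have h2 : (fun p : ρ × ρ => f (Matrix.single p.1 p.2 (1 : L) * M)) =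
        fun p : ρ × ρ => Matrix.single p.1 p.2 (1 : L) := by
      funext p
      have h3 : (Matrix.single p.1 p.2 (1 : L) * M).submatrix id c0 =
        Matrix.single p.1 p.2 (1 : L) * M.submatrix id c0 := rfl
      rw [hf, h3, hM, Matrix.mul_one]
    rw [h2]
    exact single_indep L)
  have h2 := h1.comp Sum.swap (Equiv.sumComm _ _).injective
  have h3 : Sum.elim (fun ξ : X => M.map (E ξ))
      (fun p : ρ × ρ => Matrix.single p.1 p.2 (1 : L) * M) ∘ Sum.swap =
      Sum.elim (fun p : ρ × ρ => Matrix.single p.1 p.2 (1 : L) * M)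
      (fun ξ : X => M.map (E ξ)) := by
    funext i
    rcases i with p | ξ
    · rfl
    · rfl
  rwa [h3] at h2

/-- The choice of the rows. -/
theorem pick [Fintype A] [DecidableEq A] [Fintype X] {F : A → MvPolynomial σ L} {dg : A → ℕ}
    {D : A → (σ →₀ ℕ) → Derivation ℤ L L}
    {ε : A → (σ →₀ ℕ) → L} (hD : DualP F dg D ε) {E : X → Derivation ℤ L L}
    (hE : ∀ ξ b, cd (E ξ) (F b) = 0) {M : Matrix ρ σ L} {c0 : ρ → σ}
    (hM : M.submatrix id c0 = 1) (hX : LinearIndependent L (fun ξ => M.map (E ξ)))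
    (hF : ∀ a, res M (F a) = 0) {N : Submodule L (Matrix ρ σ L)} {m : ℕ}
    (hN : Module.finrank L N ≤ Fintype.card ρ ^ 2 + m) (hN0 : ∀ Z : Matrix ρ ρ L, Z * M ∈ N)
    (hN1 : ∀ a I, M.map (D a I) ∈ N) (hN2 : ∀ ξ, M.map (E ξ) ∈ N) :
    ∃ (τ : Type) (_ : Fintype τ) (_ : DecidableEq τ) (υ : Type) (_ : Fintype υ)
      (_ : DecidableEq υ) (t : τ → A × MvPolynomial σ L) (s : υ → Matrix ρ σ L)
      (e : ρ × σ ≃ ((ρ × ρ) ⊕ (X ⊕ τ)) ⊕ ((Σ a, Ex ρ (dg a)) ⊕ υ)),
      Spans dg D E t M ∧ (∀ x, ∃ β j, (t x).2 = monomial β 1 * lf M c0 j) ∧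
      (∀ y, ∃ i j, s y = Matrix.single i j 1) ∧
      LinearIndependent L (row dg D E t c0 s M) ∧
      Fintype.card X + Fintype.card τ + Fintype.card (Σ a, Ex ρ (dg a)) ≤ m := by
  classical
  -- the rows with the linear equations
  obtain ⟨w, hw⟩ : ∃ w : {q : A × (σ →₀ ℕ) × σ // q.2.1.degree + 1 = dg q.1} → Matrix ρ σ L,
      ∀ q, w q = Dm (D q.1.1) M (monomial q.1.2.1 1 * lf M c0 q.1.2.2) := ⟨_, fun _ => rfl⟩
  obtain ⟨τ, i1, i2, f, hf, hfs⟩ := ext_family (base_indep hM hX) w
  obtain ⟨t, ht⟩ : ∃ t : τ → A × MvPolynomial σ L, ∀ x, t x = ((f x).1.1,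
    monomial (f x).1.2.1 1 * lf M c0 (f x).1.2.2) := ⟨_, fun _ => rfl⟩
  have hbr : brow D E t M = Sum.elim (Sum.elim
      (fun p : ρ × ρ => Matrix.single p.1 p.2 (1 : L) * M) (fun ξ : X => M.map (E ξ))) (w ∘ f) ∘
      (Equiv.sumAssoc (ρ × ρ) X τ).symm := by
    funext i
    rcases i with p | ξ | x
    · rfl
    · rfl
    · change Dm (D (t x).1) M (t x).2 = w (f x)
      rw [hw, ht]
  have hbi : LinearIndependent L (brow D E t M) := by
    rw [hbr]
    exact hf.comp _ (Equiv.injective _)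
  have hbs : Set.range (brow D E t M) = Set.range (Sum.elim (Sum.elim
      (fun p : ρ × ρ => Matrix.single p.1 p.2 (1 : L) * M) (fun ξ : X => M.map (E ξ))) (w ∘ f)) := by
    rw [hbr, Set.range_comp, Equiv.range_eq_univ, Set.image_univ]
  rw [← hbs] at hfs
  have hsp : Spans dg D E t M := by
    intro a P hP hP0
    have h1 : P ∈ LF M c0 (dg a) := by
      have := sub_mem_LF M c0 hP
      rwa [hP0, map_zero, sub_zero] at this
    have h2 : LF M c0 (dg a) ≤ (Submodule.span L (Set.range (brow D E t M))).comap (Dm (D a) M) := by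
      rw [LF, Submodule.span_le]
      rintro _ ⟨β, j, hβ, rfl⟩
      have h3 := hfs ⟨(a, β, j), hβ⟩
      rw [hw] at h3
      exact h3
    exact h2 h1
  -- the kernel of the differential
  obtain ⟨Φ, hΦ⟩ : ∃ Φ : Matrix ρ σ L →ₗ[L] (A → MvPolynomial ρ L), ∀ Z b, Φ Z b = Phi M (F b) Z :=
    ⟨LinearMap.pi fun b => Phi M (F b), fun _ _ => rfl⟩
  have hker : ∀ i, Φ (brow D E t M i) = 0 := by
    intro i
    funext b
    rw [hΦ]
    rcases i with p | ξ | x
    · exact Phi_mul M (hF b) _
    · change Phi M (F b) (M.map (E ξ)) = 0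
      rw [Phi_der M (hF b), hE, map_zero, neg_zero]
    · change Phi M (F b) (Dm (D (t x).1) M (t x).2) = 0
      obtain ⟨h1, h2⟩ := LF_res M hM (d := dg (t x).1) (P := (t x).2) (by
        rw [ht]
        exact Submodule.subset_span ⟨_, _, (f x).2, rfl⟩)
      have h3 := Phi_Dm hD hF (t x).1 b h2
      by_cases hab : (t x).1 = b
      · rw [h3.1 hab, h1, neg_zero]
      · exact h3.2 hab
  -- the rows with the restrictions
  obtain ⟨v, hv⟩ : ∃ v : (Σ a, Ex ρ (dg a)) → Matrix ρ σ L,
    ∀ p, v p = Dm (D p.1) M (rename c0 (monomial p.2.1 1)) := ⟨_, fun _ => rfl⟩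
  have hΦv : ∀ p b, Φ (v p) b = if p.1 = b then - monomial p.2.1 1 else 0 := by
    intro p b
    rw [hΦ, hv]
    have h3 := Phi_Dm hD hF p.1 b (P := rename c0 (monomial p.2.1 1))
      ((hom_mon p.2.2).rename_isHomogeneous)
    by_cases hab : p.1 = b
    · rw [h3.1 hab, if_pos hab, res_rename, hM, lsub_one]
    · rw [h3.2 hab, if_neg hab]
  have hvi : LinearIndependent L (fun p => Φ (v p)) := by
    rw [Fintype.linearIndependent_iff]
    intro g hg p
    have h1 := congrArg (fun z : A → MvPolynomial ρ L => (z p.1).coeff p.2.1) hg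
    simp only [Finset.sum_apply, Pi.smul_apply, coeff_sum, coeff_smul, hΦv, Pi.zero_apply,
      coeff_zero] at h1
    rw [Finset.sum_eq_single p] at h1
    · rw [if_pos rfl, coeff_neg, coeff_monomial, if_pos rfl, smul_eq_mul, mul_neg, mul_one,
        neg_eq_zero] at h1
      exact h1
    · rintro ⟨a, α⟩ _ hq
      obtain ⟨b, β⟩ := p
      by_cases hab : a = b
      · subst hab
        have hαβ : α.1 ≠ β.1 := fun h => hq (by rw [Subtype.ext h])
        rw [if_pos rfl, coeff_neg, coeff_monomial, if_neg hαβ, neg_zero, smul_zero]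
      · rw [if_neg hab, coeff_zero, smul_zero]
    · intro h; exact absurd (Finset.mem_univ _) h
  have hind := sum_indep Φ hbi hker hvi
  -- the completion
  obtain ⟨υ, i3, i4, f', hf', hfs'⟩ := ext_family hind
    (fun p : ρ × σ => (Matrix.single p.1 p.2 1 : Matrix ρ σ L))
  obtain ⟨s, hs⟩ : ∃ s : υ → Matrix ρ σ L, ∀ y, s y = Matrix.single (f' y).1 (f' y).2 1 :=
    ⟨_, fun _ => rfl⟩
  have hrow : row dg D E t c0 s M = Sum.elim (Sum.elim (brow D E t M) v)
      ((fun p : ρ × σ => (Matrix.single p.1 p.2 1 : Matrix ρ σ L)) ∘ f') ∘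
      (Equiv.sumAssoc _ _ _).symm := by
    funext i
    rcases i with i | p | y
    · rfl
    · exact (hv p).symm
    · exact hs y
  have hri : LinearIndependent L (row dg D E t c0 s M) := by
    rw [hrow]
    exact hf'.comp _ (Equiv.injective _)
  have hrs : Set.range (row dg D E t c0 s M) = Set.range (Sum.elim (Sum.elim (brow D E t M) v)
      ((fun p : ρ × σ => (Matrix.single p.1 p.2 1 : Matrix ρ σ L)) ∘ f')) := by
    rw [hrow, Set.range_comp, Equiv.range_eq_univ, Set.image_univ]
  have htop : Submodule.span L (Set.range (row dg D E t c0 s M)) = ⊤ := by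
    rw [eq_top_iff, hrs]
    intro Z _
    rw [Matrix.matrix_eq_sum_single Z]
    refine Submodule.sum_mem _ fun i _ => Submodule.sum_mem _ fun j _ => ?_
    have h1 : Matrix.single i j (Z i j) = Z i j • (Matrix.single i j 1 : Matrix ρ σ L) := by
      rw [Matrix.smul_single, smul_eq_mul, mul_one]
    rw [h1]
    exact Submodule.smul_mem _ _ (hfs' (i, j))
  have hcard : Fintype.card (ρ × σ) =
      Fintype.card (((ρ × ρ) ⊕ (X ⊕ τ)) ⊕ ((Σ a, Ex ρ (dg a)) ⊕ υ)) := by
    have h1 := finrank_span_eq_card hri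
    rw [htop, finrank_top, Module.finrank_matrix, Module.finrank_self, mul_one] at h1
    rw [← h1, Fintype.card_prod]
  refine ⟨τ, i1, i2, υ, i3, i4, t, s, Fintype.equivOfCardEq hcard, hsp, fun x => ⟨_, _, by rw [ht]⟩,
    fun y => ⟨_, _, hs y⟩, hri, ?_⟩
  -- the dimension
  have hle : Submodule.span L (Set.range (Sum.elim (brow D E t M) v)) ≤ N := by
    have hDm : ∀ a P, Dm (D a) M P ∈ N := by
      intro a P
      rw [Dm_apply]
      exact Submodule.sum_mem _ fun u _ => Submodule.smul_mem _ _ (hN1 a u)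
    rw [Submodule.span_le]
    rintro _ ⟨((p | ξ | x) | p), rfl⟩
    · exact hN0 _
    · exact hN2 ξ
    · exact hDm _ _
    · change v p ∈ N
      rw [hv]
      exact hDm _ _
  have h1 := Submodule.finrank_mono hle
  rw [finrank_span_eq_card hind] at h1
  simp only [Fintype.card_sum, Fintype.card_prod] at h1
  have h2 : Fintype.card ρ * Fintype.card ρ = Fintype.card ρ ^ 2 := by ring
  omega

end Pool.Agent.Run7.h621.FV
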