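import Pool.Agent.Run7.h621.FV.Pick
import Pool.Agent.TH145.GC.Rank

/-!
The dimension of the space of the tangent vectors.
-/

set_option autoImplicit false

open MvPolynomial AlgebraicIndependent Pool.Agent.TH145.MG Pool.Agent.TH145.GC

namespace Pool.Agent.Run7.h621.FV

theorem exists_tr {k K ι : Type} [Field k] [Field K] [Algebra k K] [Finite ι] {d : ℕ}
    (x : ι → K) (h : Algebra.trdeg k (IntermediateField.adjoin k (Set.range x)) ≤ d) :
    ∃ I : Finset ι, I.card ≤ d ∧ ∀ i, x i ∈ cl k (x '' I) := by
  classical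
  have hxc : ∀ i, x i ∈ IntermediateField.adjoin k (Set.range x) := fun i =>
    IntermediateField.subset_adjoin _ _ ⟨i, rfl⟩
  obtain ⟨B, hB⟩ := (matroid k K).exists_isBasis (Set.range x)
  have hBi : AlgebraicIndependent k ((↑) : B → K) := hB.indep
  have hBx : B ⊆ Set.range x := hB.subset
  have hBfin : B.Finite := (Set.finite_range x).subset hBx
  have hcl : ∀ i, x i ∈ (matroid k K).closure B := fun i => hB.subset_closure ⟨i, rfl⟩
  have := hBfin.fintype
  choose f hf using fun b : B => hBx b.2
  have hBc : Fintype.card B ≤ d := by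
    let y : B → IntermediateField.adjoin k (Set.range x) := fun b =>
      ⟨b.1, by rw [← hf b]; exact hxc _⟩
    have hy : AlgebraicIndependent k y := by
      apply AlgebraicIndependent.of_comp (IntermediateField.adjoin k (Set.range x)).val
      exact hBi
    have h1 := hy.cardinalMk_le_trdeg.trans h
    rw [Cardinal.mk_fintype] at h1
    exact_mod_cast h1
  refine ⟨Finset.univ.image f, ?_, ?_⟩
  · exact (Finset.card_image_le).trans (by rw [Finset.card_univ]; exact hBc)
  · intro i
    have h1 : x '' (Finset.univ.image f : Finset ι) = B := by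
      ext z
      constructor
      · rintro ⟨i, hi, rfl⟩
        obtain ⟨b, -, rfl⟩ := Finset.mem_image.1 (Finset.mem_coe.1 hi)
        rw [hf b]
        exact b.2
      · intro hz
        exact ⟨f ⟨z, hz⟩, Finset.mem_coe.2 (Finset.mem_image_of_mem _ (Finset.mem_univ _)),
          hf ⟨z, hz⟩⟩
    rw [h1, mem_cl_iff]
    exact hcl i

variable {ρ σ L : Type} [Fintype ρ] [Fintype σ] [DecidableEq ρ] [DecidableEq σ] [Field L]

/-- The sums of a multiple of a matrix and of a derivative of the matrix by a derivation over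
`k0`. -/
def TanM (k0 : Type) [Field k0] [Algebra k0 L] (M : Matrix ρ σ L) :
    Submodule L (Matrix ρ σ L) where
  carrier := {Z | ∃ (G : Matrix ρ ρ L) (E : Derivation ℤ L L),
    (∀ r : k0, E (algebraMap k0 L r) = 0) ∧ Z = G * M + M.map E}
  add_mem' := by
    rintro _ _ ⟨G, E, hE, rfl⟩ ⟨G', E', hE', rfl⟩
    refine ⟨G + G', E + E', fun r => by rw [Derivation.add_apply, hE, hE', add_zero], ?_⟩
    have h1 : M.map (E + E') = M.map E + M.map E' := rfl
    rw [h1, Matrix.add_mul]
    abel
  zero_mem' := ⟨0, 0, fun _ => rfl, by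
    have h1 : M.map (0 : Derivation ℤ L L) = 0 := rfl
    rw [h1, Matrix.zero_mul, zero_add]⟩
  smul_mem' := by
    rintro s _ ⟨G, E, hE, rfl⟩
    refine ⟨s • G, s • E, fun r => by rw [Derivation.smul_apply, hE, smul_zero], ?_⟩
    have h1 : M.map (s • E) = s • M.map E := rfl
    rw [h1, smul_add, Matrix.smul_mul]

theorem rank_le {k0 : Type} [Field k0] [Algebra k0 L] [CharZero L] {M : Matrix ρ σ L} {c0 : ρ → σ}
    (hM : M.submatrix id c0 = 1) {m : ℕ}
    (h : Algebra.trdeg k0 (IntermediateField.adjoin k0 (Set.range fun p : ρ × σ => M p.1 p.2)) ≤ m) :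
    Module.finrank L (TanM k0 M) ≤ Fintype.card ρ ^ 2 + m := by
  classical
  obtain ⟨I, hI, hIx⟩ := exists_tr (fun p : ρ × σ => M p.1 p.2) h
  obtain ⟨f, hf⟩ : ∃ f : TanM k0 M →ₗ[L] ((ρ × ρ) ⊕ {i // i ∈ I} → L), ∀ z,
      (∀ p, f z (Sum.inl p) = z.1 p.1 (c0 p.2)) ∧ ∀ i, f z (Sum.inr i) = z.1 i.1.1 i.1.2 :=
    ⟨{ toFun := fun z i => match i with
        | Sum.inl p => z.1 p.1 (c0 p.2)
        | Sum.inr i => z.1 i.1.1 i.1.2
       map_add' := fun _ _ => by
        funext i
        rcases i with p | i
        · rfl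
        · rfl
       map_smul' := fun _ _ => by
        funext i
        rcases i with p | i
        · rfl
        · rfl }, fun _ => ⟨fun _ => rfl, fun _ => rfl⟩⟩
  have hinj : Function.Injective f := by
    rw [← LinearMap.ker_eq_bot, LinearMap.ker_eq_bot']
    rintro ⟨z, G, E, hE, hz⟩ h0
    have h1 : ∀ i j, z i (c0 j) = 0 := fun i j => by
      have := congrFun h0 (Sum.inl (i, j))
      rw [(hf _).1] at this
      exact this
    have h2 : ∀ i ∈ I, z i.1 i.2 = 0 := fun i hi => by
      have := congrFun h0 (Sum.inr ⟨i, hi⟩)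
      rw [(hf _).2] at this
      exact this
    have hG : G = 0 := by
      have h3 : z.submatrix id c0 = G := by
        rw [hz]
        have h4 : (G * M + M.map E).submatrix id c0 =
          G * M.submatrix id c0 + (M.submatrix id c0).map E := rfl
        have h5 : (1 : Matrix ρ ρ L).map E = 0 := by
          ext i j
          rw [Matrix.map_apply, Matrix.one_apply, Matrix.zero_apply]
          split_ifs
          · rw [E.map_one_eq_zero]
          · rw [map_zero]
        rw [h4, hM, Matrix.mul_one, h5, add_zero]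
      rw [← h3]
      ext i j
      exact h1 i j
    rw [hG, Matrix.zero_mul, zero_add] at hz
    have hEI : ∀ i ∈ I, E (M i.1 i.2) = 0 := fun i hi => by
      have h3 := h2 i hi
      rwa [hz] at h3
    -- the field of the constants
    have hZ : ∀ w ∈ Subfield.closure (Set.range (algebraMap k0 L) ∪
        (fun p : ρ × σ => M p.1 p.2) '' (I : Set (ρ × σ))), E w = 0 := by
      intro w hw
      induction hw using Subfield.closure_induction with
      | mem w hw =>
        rcases hw with ⟨r, rfl⟩ | ⟨i, hi, rfl⟩
        · exact hE r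
        · exact hEI i hi
      | one => exact E.map_one_eq_zero
      | add a b _ _ ha hb => rw [map_add, ha, hb, add_zero]
      | neg a _ ha => rw [map_neg, ha, neg_zero]
      | inv a _ ha => rw [Derivation.leibniz_inv, ha, smul_zero]
      | mul a b _ _ ha hb => rw [E.leibniz, ha, hb, smul_zero, smul_zero, add_zero]
    have hx : ∀ p : ρ × σ, E (M p.1 p.2) = 0 := by
      intro i
      refine der_zero_of_alg E _ hZ ?_
      have h2 := mem_cl.1 (hIx i)
      have h3 : (IntermediateField.adjoin k0
          ((fun p : ρ × σ => M p.1 p.2) '' (I : Set (ρ × σ)))).toSubfield =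
        Subfield.closure (Set.range (algebraMap k0 L) ∪
          (fun p : ρ × σ => M p.1 p.2) '' (I : Set (ρ × σ))) :=
        IntermediateField.adjoin_toSubfield _ _
      rw [← h3]
      exact h2
    apply Subtype.ext
    change z = 0
    rw [hz]
    ext i j
    exact hx (i, j)
  have h1 := LinearMap.finrank_le_finrank_of_injective hinj
  rw [Module.finrank_pi, Fintype.card_sum, Fintype.card_prod, Fintype.card_coe] at h1
  have h2 : Fintype.card ρ * Fintype.card ρ = Fintype.card ρ ^ 2 := by ring
  omega

end Pool.Agent.Run7.h621.FV
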