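import Pool.Agent.Run7.h621.FV.Rows

/-!
The rows: vertical tangent vectors, tangent vectors that fix the plane, and the rest.
-/

set_option autoImplicit false

open MvPolynomial
open scoped Kronecker

namespace Pool.Agent.Run7.h621.FV

variable {ρ σ A X τ ε L : Type} [Fintype ρ] [Fintype σ] [DecidableEq ρ] [DecidableEq σ] [Field L]

/-- The first part of the rows. -/
noncomputable def brow (D : A → (σ →₀ ℕ) → Derivation ℤ L L) (E : X → Derivation ℤ L L)
    (t : τ → A × MvPolynomial σ L) (M : Matrix ρ σ L) : (ρ × ρ) ⊕ (X ⊕ τ) → Matrix ρ σ L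
  | Sum.inl p => Matrix.single p.1 p.2 (1 : L) * M
  | Sum.inr (Sum.inl ξ) => M.map (E ξ)
  | Sum.inr (Sum.inr x) => Dm (D (t x).1) M (t x).2

/-- The rows. -/
noncomputable def row (dg : A → ℕ) (D : A → (σ →₀ ℕ) → Derivation ℤ L L)
    (E : X → Derivation ℤ L L) (t : τ → A × MvPolynomial σ L) (c : ρ → σ) (s : ε → Matrix ρ σ L)
    (M : Matrix ρ σ L) : ((ρ × ρ) ⊕ (X ⊕ τ)) ⊕ ((Σ a, Ex ρ (dg a)) ⊕ ε) → Matrix ρ σ L
  | Sum.inl i => brow D E t M i
  | Sum.inr (Sum.inl p) => Dm (D p.1) M (rename c (monomial p.2.1 1))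
  | Sum.inr (Sum.inr y) => s y

/-- The first part of the rows spans the tangent vectors that do not move the restrictions of the
forms. -/
def Spans (dg : A → ℕ) (D : A → (σ →₀ ℕ) → Derivation ℤ L L)
    (E : X → Derivation ℤ L L) (t : τ → A × MvPolynomial σ L) (M : Matrix ρ σ L) : Prop :=
  ∀ a P, P.IsHomogeneous (dg a) → res M P = 0 →
    Dm (D a) M P ∈ Submodule.span L (Set.range (brow D E t M))

theorem det_bd {α R : Type} [Fintype α] [DecidableEq α] [CommRing R] {m : α → Type}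
    [∀ a, Fintype (m a)] [∀ a, DecidableEq (m a)] (d : ∀ a, Matrix (m a) (m a) R) :
    (Matrix.blockDiagonal' d).det = ∏ a, (d a).det := by
  let _ : LinearOrder α := LinearOrder.lift' (Fintype.equivFin α) (Fintype.equivFin α).injective
  have h1 := (Matrix.blockTriangular_blockDiagonal' d).det_fintype
  have h2 : ∀ a, ((Matrix.blockDiagonal' d).toSquareBlock Sigma.fst a).det = (d a).det := by
    intro a
    rw [← Matrix.det_submatrix_equiv_self (Equiv.sigmaSubtype a).symm]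
    congr 1
    ext i j
    exact Matrix.blockDiagonal'_apply_eq _ _ _ _
  rw [← Finset.prod_congr rfl fun a _ => h2 a, ← h1]

/-- A block triangular change of the family, with four blocks. -/
theorem dt_tri4 {α β γ δ : Type} [Fintype α] [Fintype β] [DecidableEq α] [DecidableEq β]
    [Fintype γ] [Fintype δ] [DecidableEq γ] [DecidableEq δ]
    (e : ρ × σ ≃ (α ⊕ β) ⊕ (γ ⊕ δ)) {v v' : (α ⊕ β) ⊕ (γ ⊕ δ) → Matrix ρ σ L}
    (K : Matrix α α L) (B : Matrix γ γ L)
    (h0 : ∀ i, v (Sum.inl (Sum.inl i)) = ∑ j, K i j • v' (Sum.inl (Sum.inl j)))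
    (h1 : ∀ i, v (Sum.inl (Sum.inr i)) - v' (Sum.inl (Sum.inr i)) ∈
      Submodule.span L (Set.range fun j => v' (Sum.inl (Sum.inl j))))
    (h2 : ∀ i, v (Sum.inr (Sum.inl i)) - ∑ j, B i j • v' (Sum.inr (Sum.inl j)) ∈
      Submodule.span L (Set.range fun j => v' (Sum.inl j)))
    (h3 : ∀ i, v (Sum.inr (Sum.inr i)) = v' (Sum.inr (Sum.inr i))) :
    dt e v = K.det * B.det * dt e v' := by
  have h4 : ∀ i, ∃ r : α → L, ∑ j, r j • v' (Sum.inl (Sum.inl j)) =
      v (Sum.inl (Sum.inr i)) - v' (Sum.inl (Sum.inr i)) := fun i => by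
    have := h1 i
    rwa [Submodule.mem_span_range_iff_exists_fun] at this
  choose r hr using h4
  rw [dt_tri e (v' := v') (Matrix.fromBlocks K 0 (Matrix.of r) 1) (Matrix.fromBlocks B 0 0 1)]
  · rw [Matrix.det_fromBlocks_zero₁₂, Matrix.det_fromBlocks_zero₁₂, Matrix.det_one, mul_one,
      Matrix.det_one, mul_one]
  · rintro (i | i)
    · rw [Fintype.sum_sum_type]
      simp only [Matrix.fromBlocks_apply₁₁, Matrix.fromBlocks_apply₁₂, Matrix.zero_apply, zero_smul,
        Finset.sum_const_zero, add_zero]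
      exact h0 i
    · rw [Fintype.sum_sum_type]
      simp only [Matrix.fromBlocks_apply₂₁, Matrix.fromBlocks_apply₂₂, Matrix.of_apply]
      rw [hr i, Finset.sum_eq_single i]
      · rw [Matrix.one_apply_eq, one_smul, sub_add_cancel]
      · intro j _ hj
        rw [Matrix.one_apply_ne (Ne.symm hj), zero_smul]
      · intro h; exact absurd (Finset.mem_univ _) h
  · rintro (i | i)
    · rw [Fintype.sum_sum_type]
      simp only [Matrix.fromBlocks_apply₁₁, Matrix.fromBlocks_apply₁₂, Matrix.zero_apply, zero_smul,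
        Finset.sum_const_zero, add_zero]
      exact h2 i
    · rw [Fintype.sum_sum_type]
      simp only [Matrix.fromBlocks_apply₂₁, Matrix.fromBlocks_apply₂₂, Matrix.zero_apply, zero_smul,
        Finset.sum_const_zero, zero_add]
      rw [Finset.sum_eq_single i]
      · rw [Matrix.one_apply_eq, one_smul, h3, sub_self]
        exact zero_mem _
      · intro j _ hj
        rw [Matrix.one_apply_ne (Ne.symm hj), zero_smul]
      · intro h; exact absurd (Finset.mem_univ _) h

section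

variable {dg : A → ℕ} {D : A → (σ →₀ ℕ) → Derivation ℤ L L} {E : X → Derivation ℤ L L}
  {t : τ → A × MvPolynomial σ L}

omit [Fintype σ] [DecidableEq σ] in
theorem mul_eq_sum (Z : Matrix ρ ρ L) (M : Matrix ρ σ L) :
    Z * M = ∑ p : ρ × ρ, Z p.1 p.2 • (Matrix.single p.1 p.2 (1 : L) * M) := by
  conv_lhs => rw [Matrix.matrix_eq_sum_single Z]
  rw [Fintype.sum_prod_type, Matrix.sum_mul]
  refine Finset.sum_congr rfl fun i _ => ?_
  rw [Matrix.sum_mul]
  refine Finset.sum_congr rfl fun j _ => ?_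
  rw [← Matrix.smul_mul, Matrix.smul_single, smul_eq_mul, mul_one]

omit [Fintype σ] [DecidableEq σ] in
theorem mul_mem_brow (Z : Matrix ρ ρ L) (M : Matrix ρ σ L) :
    Z * M ∈ Submodule.span L (Set.range (brow D E t M)) := by
  rw [mul_eq_sum]
  exact Submodule.sum_mem _ fun p _ => Submodule.smul_mem _ _ (Submodule.subset_span ⟨Sum.inl p, rfl⟩)

omit [Fintype σ] [DecidableEq σ] in
theorem gsingle {g : Matrix ρ ρ L} (hg : g.det ≠ 0) (M : Matrix ρ σ L) (p : ρ × ρ) :
    g * (Matrix.single p.1 p.2 (1 : L) * M) =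
      (g * Matrix.single p.1 p.2 (1 : L) * g⁻¹) * (g * M) := by
  rw [Matrix.mul_assoc _ g⁻¹, ← Matrix.mul_assoc g⁻¹,
    Matrix.nonsing_inv_mul _ (isUnit_iff_ne_zero.2 hg), Matrix.one_mul, Matrix.mul_assoc]

omit [Fintype σ] [DecidableEq σ] in
theorem gsingle_sum {g : Matrix ρ ρ L} (hg : g.det ≠ 0) (M : Matrix ρ σ L) (p : ρ × ρ) :
    g * (Matrix.single p.1 p.2 (1 : L) * M) = ∑ q : ρ × ρ, (g.transpose ⊗ₖ g⁻¹) p q •
      (Matrix.single q.1 q.2 (1 : L) * (g * M)) := by
  rw [gsingle hg, mul_eq_sum]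
  refine Finset.sum_congr rfl fun q _ => ?_
  congr 1
  rw [Matrix.kroneckerMap_apply, Matrix.transpose_apply, Matrix.mul_apply,
    Finset.sum_eq_single p.2]
  · rw [Matrix.mul_single_apply_same, mul_one]
  · intro k _ hk
    rw [Matrix.mul_single_apply_of_ne, zero_mul]
    exact hk
  · intro h; exact absurd (Finset.mem_univ _) h

omit [Fintype σ] [DecidableEq σ] in
theorem gspan {g : Matrix ρ ρ L} (hg : g.det ≠ 0) (M : Matrix ρ σ L) {Z : Matrix ρ σ L}
    (hZ : Z ∈ Submodule.span L (Set.range (brow D E t M))) :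
    g * Z ∈ Submodule.span L (Set.range (brow D E t (g * M))) := by
  have hM : M = g⁻¹ * (g * M) := by
    rw [← Matrix.mul_assoc, Matrix.nonsing_inv_mul _ (isUnit_iff_ne_zero.2 hg), Matrix.one_mul]
  obtain ⟨f, hf⟩ : ∃ f : Matrix ρ σ L →ₗ[L] Matrix ρ σ L, ∀ Z, f Z = g * Z :=
    ⟨{ toFun := fun Z => g * Z
       map_add' := fun _ _ => Matrix.mul_add _ _ _
       map_smul' := fun _ _ => Matrix.mul_smul _ _ _ }, fun _ => rfl⟩
  have h1 : Submodule.span L (Set.range (brow D E t M)) ≤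
      (Submodule.span L (Set.range (brow D E t (g * M)))).comap f := by
    rw [Submodule.span_le]
    rintro _ ⟨(p | ξ | x), rfl⟩
    · change f _ ∈ Submodule.span L (Set.range (brow D E t (g * M)))
      rw [hf]
      change g * (Matrix.single p.1 p.2 (1 : L) * M) ∈ _
      rw [gsingle hg]
      exact mul_mem_brow _ _
    · change f _ ∈ Submodule.span L (Set.range (brow D E t (g * M)))
      rw [hf]
      change g * (M.map (E ξ)) ∈ _
      have h2 := map_mul_der (E ξ) g M
      have h3 : g * (M.map (E ξ)) = (g * M).map (E ξ) - (g.map (E ξ) * g⁻¹) * (g * M) := by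
        rw [h2, Matrix.mul_assoc, ← hM, add_sub_cancel_left]
      rw [h3]
      exact sub_mem (Submodule.subset_span ⟨Sum.inr (Sum.inl ξ), rfl⟩) (mul_mem_brow _ _)
    · change f _ ∈ Submodule.span L (Set.range (brow D E t (g * M)))
      rw [hf]
      change g * (Dm (D (t x).1) M (t x).2) ∈ _
      have h2 := Dm_mul (D (t x).1) g M (t x).2
      have h3 : g * (Dm (D (t x).1) M (t x).2) = Dm (D (t x).1) (g * M) (t x).2 -
          (Dm (D (t x).1) g (t x).2 * g⁻¹) * (g * M) := by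
        rw [h2, Matrix.mul_assoc, ← hM, add_sub_cancel_left]
      rw [h3]
      exact sub_mem (Submodule.subset_span ⟨Sum.inr (Sum.inr x), rfl⟩) (mul_mem_brow _ _)
  have h2 := h1 hZ
  rw [Submodule.mem_comap, hf] at h2
  exact h2

omit [Fintype σ] [DecidableEq σ] in
theorem gbrow {g : Matrix ρ ρ L} (hg : g.det ≠ 0) (M : Matrix ρ σ L) (i : X ⊕ τ) :
    g * brow D E t M (Sum.inr i) - brow D E t (g * M) (Sum.inr i) ∈
      Submodule.span L (Set.range fun p : ρ × ρ => Matrix.single p.1 p.2 (1 : L) * (g * M)) := by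
  have hM : M = g⁻¹ * (g * M) := by
    rw [← Matrix.mul_assoc, Matrix.nonsing_inv_mul _ (isUnit_iff_ne_zero.2 hg), Matrix.one_mul]
  have h1 : ∃ Z : Matrix ρ ρ L, g * brow D E t M (Sum.inr i) - brow D E t (g * M) (Sum.inr i) =
      Z * (g * M) := by
    rcases i with ξ | x
    · refine ⟨-(g.map (E ξ) * g⁻¹), ?_⟩
      simp only [brow]
      rw [map_mul_der, Matrix.neg_mul, Matrix.mul_assoc _ g⁻¹, ← hM]
      abel
    · refine ⟨-(Dm (D (t x).1) g (t x).2 * g⁻¹), ?_⟩
      simp only [brow]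
      rw [Dm_mul, Matrix.neg_mul, Matrix.mul_assoc _ g⁻¹, ← hM]
      abel
  obtain ⟨Z, hZ⟩ := h1
  rw [hZ, mul_eq_sum Z]
  refine Submodule.sum_mem _ fun p _ => ?_
  refine Submodule.smul_mem _ _ ?_
  apply Submodule.subset_span
  exact ⟨p, rfl⟩

omit [Fintype σ] [DecidableEq σ] in
theorem LF_res (M : Matrix ρ σ L) {c : ρ → σ} (hM : M.submatrix id c = 1) {d : ℕ}
    {P : MvPolynomial σ L} (hP : P ∈ LF M c d) : res M P = 0 ∧ P.IsHomogeneous d := by
  have h1 : ∀ j, res M (lf M c j) = 0 := by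
    intro j
    rw [lf, map_sub, map_sum, res_X]
    simp only [map_mul, ← algebraMap_eq, AlgHom.commutes]
    rw [sub_eq_zero]
    refine Finset.sum_congr rfl fun i _ => ?_
    rw [res_X, Finset.sum_eq_single i]
    · have h2 : M i (c i) = 1 := by
        have := congrFun (congrFun hM i) i
        rwa [Matrix.one_apply_eq] at this
      rw [h2, C_1, one_mul]
    · intro k _ hk
      have h2 : M k (c i) = 0 := by
        have := congrFun (congrFun hM k) i
        rwa [Matrix.one_apply_ne hk] at this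
      rw [h2, C_0, zero_mul]
    · intro h; exact absurd (Finset.mem_univ _) h
  induction hP using Submodule.span_induction with
  | mem P hP =>
    obtain ⟨β, j, hβ, rfl⟩ := hP
    refine ⟨by rw [map_mul, h1, mul_zero], ?_⟩
    rw [← hβ]
    refine (isHomogeneous_monomial (1 : L) rfl).mul ?_
    refine (isHomogeneous_X L j).sub (IsHomogeneous.sum _ _ _ fun i _ => ?_)
    have := (isHomogeneous_C σ (M i j)).mul (isHomogeneous_X L (c i))
    rwa [zero_add] at this
  | zero => exact ⟨map_zero _, isHomogeneous_zero _ _ _⟩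
  | add P Q _ _ hP hQ => exact ⟨by rw [map_add, hP.1, hQ.1, add_zero], hP.2.add hQ.2⟩
  | smul a P _ hP =>
    refine ⟨by rw [map_smul, hP.1, smul_zero], ?_⟩
    rw [smul_eq_C_mul]
    have := (isHomogeneous_C σ a).mul hP.2
    rwa [zero_add] at this

omit [Fintype σ] [DecidableEq σ] in
/-- The rows with restrictions. -/
theorem srow [Fintype A] {g : Matrix ρ ρ L}
    (hg : g.det ≠ 0) {M : Matrix ρ σ L} {c0 c1 : ρ → σ} (hM0 : M.submatrix id c0 = 1)
    (hM1 : (g * M).submatrix id c1 = 1)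
    (hsp : Spans dg D E t M) (a : A) (α : Ex ρ (dg a)) :
    g * Dm (D a) M (rename c0 (monomial α.1 1)) - ∑ β : Ex ρ (dg a), Sd (dg a) g α β •
      Dm (D a) (g * M) (rename c1 (monomial β.1 1)) ∈
        Submodule.span L (Set.range (brow D E t (g * M))) := by
  have hM : M = g⁻¹ * (g * M) := by
    rw [← Matrix.mul_assoc, Matrix.nonsing_inv_mul _ (isUnit_iff_ne_zero.2 hg), Matrix.one_mul]
  obtain ⟨Q, hQ⟩ : ∃ Q, Q = rename c0 (monomial α.1 (1 : L)) := ⟨_, rfl⟩
  have hQh : Q.IsHomogeneous (dg a) := by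
    rw [hQ]
    exact (hom_mon α.2).rename_isHomogeneous
  have h1 : ∑ β : Ex ρ (dg a), Sd (dg a) g α β • Dm (D a) (g * M) (rename c1 (monomial β.1 1)) =
      Dm (D a) (g * M) (rename c1 (res (g * M) Q)) := by
    have h2 : res (g * M) Q = lsub g (monomial α.1 1) := by
      rw [res_mul, hQ, res_rename, hM0, lsub_one]
    rw [h2, lsub_mon]
    simp only [map_sum, map_smul]
  rw [h1, ← hQ]
  obtain ⟨P, hP⟩ : ∃ P, P = Q - rename c1 (res (g * M) Q) := ⟨_, rfl⟩
  have h3 : g * Dm (D a) M Q - Dm (D a) (g * M) (rename c1 (res (g * M) Q)) =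
      Dm (D a) (g * M) P - (Dm (D a) g Q * g⁻¹) * (g * M) := by
    rw [hP, map_sub, Dm_mul (D a) g M Q, Matrix.mul_assoc _ g⁻¹, ← hM]
    abel
  rw [h3]
  refine sub_mem ?_ (mul_mem_brow _ _)
  have hPL : P ∈ LF (g * M) c1 (dg a) := by
    rw [hP]
    exact sub_mem_LF _ _ hQh
  obtain ⟨h4, h5⟩ := LF_res (g * M) hM1 hPL
  rw [res_mul_eq_zero hg] at h4
  have h6 : Dm (D a) (g * M) P = g * Dm (D a) M P + (Dm (D a) g P * g⁻¹) * (g * M) := by
    rw [Dm_mul (D a) g M P, Matrix.mul_assoc _ g⁻¹, ← hM]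
    abel
  rw [h6]
  exact add_mem (gspan hg M (hsp a P h5 h4)) (mul_mem_brow _ _)

/-- The change of the chart. -/
theorem dt_chart [Fintype A] [Fintype X] [Fintype τ] [Fintype ε] [DecidableEq A] [DecidableEq X]
    [DecidableEq τ] [DecidableEq ε] [CharZero L] (i0 : ρ)
    (e : ρ × σ ≃ ((ρ × ρ) ⊕ (X ⊕ τ)) ⊕ ((Σ a, Ex ρ (dg a)) ⊕ ε)) {g : Matrix ρ ρ L}
    (hg : g.det ≠ 0) {M : Matrix ρ σ L} {c0 c1 : ρ → σ} (hM0 : M.submatrix id c0 = 1)
    (hM1 : (g * M).submatrix id c1 = 1)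
    (hsp : Spans dg D E t M) (s : ε → Matrix ρ σ L) :
    g.det ^ Fintype.card σ * dt e (row dg D E t c0 s M) =
      (∏ a, g.det ^ cdeg i0 (dg a)) * dt e (row dg D E t c1 (fun y => g * s y) (g * M)) := by
  rw [← dt_mul, dt_tri4 e (v' := row dg D E t c1 (fun y => g * s y) (g * M))
    (g.transpose ⊗ₖ g⁻¹) (Matrix.blockDiagonal' fun a => Sd (dg a) g)]
  · congr 1
    rw [Matrix.det_kronecker, Matrix.det_transpose,
      det_bd, ← mul_pow, ← Matrix.det_mul,
      Matrix.mul_nonsing_inv _ (isUnit_iff_ne_zero.2 hg), Matrix.det_one, one_pow, one_mul]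
    exact Finset.prod_congr rfl fun a _ => det_Sd i0 (dg a) hg
  · intro p
    exact gsingle_sum hg M p
  · intro i
    exact gbrow hg M i
  · rintro ⟨a, α⟩
    rw [Fintype.sum_sigma, Finset.sum_eq_single a]
    · simp only [Matrix.blockDiagonal'_apply_eq]
      exact srow hg hM0 hM1 hsp a α
    · intro b _ hb
      refine Finset.sum_eq_zero fun β _ => ?_
      rw [Matrix.blockDiagonal'_apply_ne _ _ _ (Ne.symm hb), zero_smul]
    · intro h; exact absurd (Finset.mem_univ _) h
  · intro y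
    rfl

end

end Pool.Agent.Run7.h621.FV
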