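import Pool.Agent.Run7.h621.FV.Sym

/-!
Families of tangent vectors to the Grassmannian, and their determinants.
-/

set_option autoImplicit false

open MvPolynomial
open scoped Kronecker

namespace Pool.Agent.Run7.h621.FV

section dt

variable {ρ σ ι L : Type} [Fintype ρ] [Fintype σ] [DecidableEq ρ] [DecidableEq σ] [Field L]

/-- The determinant of a family of matrices. -/
noncomputable def dt (e : ρ × σ ≃ ι) (v : ι → Matrix ρ σ L) : L :=
  (Matrix.of fun p q : ρ × σ => v (e p) q.1 q.2).det

theorem dt_lin [Fintype ι] [DecidableEq ι] (e : ρ × σ ≃ ι) {v v' : ι → Matrix ρ σ L}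
    (B : Matrix ι ι L) (h : ∀ i, v' i = ∑ j, B i j • v j) : dt e v' = B.det * dt e v := by
  have h1 : (Matrix.of fun p q : ρ × σ => v' (e p) q.1 q.2) =
      B.submatrix e e * Matrix.of fun p q : ρ × σ => v (e p) q.1 q.2 := by
    ext p q
    rw [Matrix.mul_apply, Matrix.of_apply, h, ← Equiv.sum_comp e]
    rw [Matrix.sum_apply]
    rfl
  unfold dt
  rw [h1, Matrix.det_mul, Matrix.det_submatrix_equiv_self]

theorem dt_mul (e : ρ × σ ≃ ι) (v : ι → Matrix ρ σ L) (g : Matrix ρ ρ L) :
    dt e (fun i => g * v i) = g.det ^ Fintype.card σ * dt e v := by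
  have h1 : (Matrix.of fun p q : ρ × σ => (g * v (e p)) q.1 q.2) =
      (Matrix.of fun p q : ρ × σ => v (e p) q.1 q.2) * (g.transpose ⊗ₖ (1 : Matrix σ σ L)) := by
    ext p q
    rw [Matrix.mul_apply, Matrix.of_apply, Matrix.mul_apply, Fintype.sum_prod_type]
    refine Finset.sum_congr rfl fun k _ => ?_
    rw [Finset.sum_eq_single q.2]
    · rw [Matrix.of_apply, Matrix.kroneckerMap_apply, Matrix.one_apply_eq, Matrix.transpose_apply,
        mul_one, mul_comm]
    · intro l _ hl
      rw [Matrix.kroneckerMap_apply, Matrix.one_apply_ne hl, mul_zero, mul_zero]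
    · intro h; exact absurd (Finset.mem_univ _) h
  unfold dt
  rw [h1, Matrix.det_mul, Matrix.det_kronecker, Matrix.det_transpose, Matrix.det_one, one_pow,
    mul_one, mul_comm]

/-- A block triangular change of the family. -/
theorem dt_tri {α β : Type} [Fintype α] [Fintype β] [DecidableEq α] [DecidableEq β]
    (e : ρ × σ ≃ α ⊕ β) {v v' : α ⊕ β → Matrix ρ σ L} (K : Matrix α α L) (B : Matrix β β L)
    (h1 : ∀ i, v (Sum.inl i) = ∑ j, K i j • v' (Sum.inl j))
    (h2 : ∀ i, v (Sum.inr i) - ∑ j, B i j • v' (Sum.inr j) ∈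
      Submodule.span L (Set.range fun j : α => v' (Sum.inl j))) :
    dt e v = K.det * B.det * dt e v' := by
  have h3 : ∀ i, ∃ r : α → L, ∑ j, r j • v' (Sum.inl j) =
      v (Sum.inr i) - ∑ j, B i j • v' (Sum.inr j) := fun i => by
    have := h2 i
    rwa [Submodule.mem_span_range_iff_exists_fun] at this
  choose r hr using h3
  have h4 := dt_lin e (v := v') (v' := v) (Matrix.fromBlocks K 0 (Matrix.of r) B) (by
    rintro (i | i)
    · rw [Fintype.sum_sum_type]
      simp only [Matrix.fromBlocks_apply₁₁, Matrix.fromBlocks_apply₁₂, Matrix.zero_apply, zero_smul,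
        Finset.sum_const_zero, add_zero]
      exact h1 i
    · rw [Fintype.sum_sum_type]
      simp only [Matrix.fromBlocks_apply₂₁, Matrix.fromBlocks_apply₂₂, Matrix.of_apply]
      rw [hr i, sub_add_cancel])
  rw [h4, Matrix.det_fromBlocks_zero₁₂]

theorem dt_ne_zero (e : ρ × σ ≃ ι) {v : ι → Matrix ρ σ L} (h : LinearIndependent L v) :
    dt e v ≠ 0 := by
  have h1 : LinearIndependent L (fun p : ρ × σ => fun q : ρ × σ => v (e p) q.1 q.2) := by
    obtain ⟨f, hf⟩ : ∃ f : Matrix ρ σ L →ₗ[L] (ρ × σ → L), ∀ Z q, f Z q = Z q.1 q.2 :=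
      ⟨{ toFun := fun Z q => Z q.1 q.2
         map_add' := fun _ _ => rfl
         map_smul' := fun _ _ => rfl }, fun _ _ => rfl⟩
    have h2 : LinearMap.ker f = ⊥ := by
      rw [LinearMap.ker_eq_bot']
      intro Z hZ
      ext i j
      have := congrFun hZ (i, j)
      rwa [hf] at this
    have h3 := (h.comp e e.injective).map' f h2
    have h4 : (f ∘ v ∘ e) = fun p : ρ × σ => fun q : ρ × σ => v (e p) q.1 q.2 := by
      funext p q
      exact hf _ _
    rw [h4] at h3
    exact h3
  have h2 : IsUnit (Matrix.of fun p q : ρ × σ => v (e p) q.1 q.2) := by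
    rw [← Matrix.linearIndependent_rows_iff_isUnit]
    exact h1
  exact (Matrix.isUnit_iff_isUnit_det _).1 h2 |>.ne_zero

end dt

section Dm

variable {ρ σ τ L : Type} [Fintype ρ] [Fintype σ] [Field L]

/-- The derivative of a matrix along a polynomial. -/
noncomputable def Dm {π : Type} (D : (σ →₀ ℕ) → Derivation ℤ L L) (M : Matrix ρ π L) :
    MvPolynomial σ L →ₗ[L] Matrix ρ π L :=
  (basisMonomials σ L).constr L fun I => M.map (D I)

omit [Fintype ρ] [Fintype σ] in
theorem Dm_mon {π : Type} (D : (σ →₀ ℕ) → Derivation ℤ L L) (M : Matrix ρ π L) (I : σ →₀ ℕ) :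
    Dm D M (monomial I 1) = M.map (D I) := by
  have := (basisMonomials σ L).constr_basis L (fun I => M.map (D I)) I
  rwa [coe_basisMonomials] at this

omit [Fintype ρ] [Fintype σ] in
theorem Dm_apply {π : Type} (D : (σ →₀ ℕ) → Derivation ℤ L L) (M : Matrix ρ π L)
    (P : MvPolynomial σ L) : Dm D M P = ∑ u ∈ P.support, P.coeff u • M.map (D u) := by
  conv_lhs => rw [P.as_sum]
  rw [map_sum]
  refine Finset.sum_congr rfl fun u _ => ?_
  have h1 : monomial u (P.coeff u) = P.coeff u • monomial u (1 : L) := by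
    rw [smul_monomial, smul_eq_mul, mul_one]
  rw [h1, map_smul, Dm_mon]

omit [Fintype ρ] [Fintype σ] in
theorem map_mul_der {π : Type} [Fintype π] (δ : Derivation ℤ L L) (g : Matrix ρ π L) (M : Matrix π σ L) :
    (g * M).map δ = g.map δ * M + g * M.map δ := by
  ext i j
  rw [Matrix.map_apply, Matrix.mul_apply, map_sum, Matrix.add_apply, Matrix.mul_apply,
    Matrix.mul_apply, ← Finset.sum_add_distrib]
  refine Finset.sum_congr rfl fun k _ => ?_
  rw [δ.leibniz, Matrix.map_apply, Matrix.map_apply, smul_eq_mul, smul_eq_mul]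
  ring

omit [Fintype σ] in
theorem Dm_mul (D : (σ →₀ ℕ) → Derivation ℤ L L) (g : Matrix ρ ρ L) (M : Matrix ρ σ L)
    (P : MvPolynomial σ L) : Dm D (g * M) P = Dm D g P * M + g * Dm D M P := by
  rw [Dm_apply, Dm_apply, Dm_apply, Matrix.sum_mul, Matrix.mul_sum, ← Finset.sum_add_distrib]
  refine Finset.sum_congr rfl fun u _ => ?_
  rw [map_mul_der, smul_add, Matrix.smul_mul, Matrix.mul_smul]

end Dm

section res

variable {ρ σ L : Type} [Fintype ρ] [Fintype σ] [DecidableEq ρ] [Field L]

/-- The restriction of polynomials to the row space of a matrix. -/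
noncomputable def res (M : Matrix ρ σ L) : MvPolynomial σ L →ₐ[L] MvPolynomial ρ L :=
  aeval fun j => ∑ i, C (M i j) * X i

omit [Fintype σ] [DecidableEq ρ] in
theorem res_X (M : Matrix ρ σ L) (j : σ) : res M (X j) = ∑ i, C (M i j) * X i := by
  rw [res, aeval_X]

omit [Fintype σ] [DecidableEq ρ] in
theorem res_hom (M : Matrix ρ σ L) {d : ℕ} {P : MvPolynomial σ L} (hP : P.IsHomogeneous d) :
    (res M P).IsHomogeneous d := by
  have h1 := hP.aeval (fun j => ∑ i, C (M i j) * X i) (n := 1) (fun j =>
    IsHomogeneous.sum _ _ _ fun k _ => by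
      have := (isHomogeneous_C ρ (M k j)).mul (isHomogeneous_X L k)
      rwa [zero_add] at this)
  rw [one_mul] at h1
  exact h1

omit [Fintype σ] [DecidableEq ρ] in
theorem res_mul (g : Matrix ρ ρ L) (M : Matrix ρ σ L) (P : MvPolynomial σ L) :
    res (g * M) P = lsub g (res M P) := by
  have h1 : res (g * M) = (lsub g).comp (res M) := by
    apply MvPolynomial.algHom_ext
    intro j
    rw [AlgHom.comp_apply, res_X, res_X, map_sum]
    simp only [map_mul, lsub_X, ← algebraMap_eq, AlgHom.commutes]
    simp only [algebraMap_eq, Matrix.mul_apply, map_sum, Finset.sum_mul, Finset.mul_sum, C_mul]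
    rw [Finset.sum_comm]
    refine Finset.sum_congr rfl fun k _ => Finset.sum_congr rfl fun l _ => ?_
    ring
  rw [h1]
  rfl

omit [Fintype σ] in
theorem res_mul_eq_zero {g : Matrix ρ ρ L} (hg : g.det ≠ 0) (M : Matrix ρ σ L)
    (P : MvPolynomial σ L) : res (g * M) P = 0 ↔ res M P = 0 := by
  rw [res_mul]
  refine ⟨fun h => ?_, fun h => by rw [h, map_zero]⟩
  have h1 := congrArg (lsub g⁻¹) h
  rw [map_zero, ← lsub_mul, Matrix.nonsing_inv_mul _ (isUnit_iff_ne_zero.2 hg), lsub_one] at h1
  exact h1

omit [Fintype σ] [DecidableEq ρ] in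
theorem res_rename (M : Matrix ρ σ L) (c : ρ → σ) (P : MvPolynomial ρ L) :
    res M (rename c P) = lsub (M.submatrix id c) P := by
  have h1 : (res M).comp (rename c) = lsub (M.submatrix id c) := by
    apply MvPolynomial.algHom_ext
    intro i
    rw [AlgHom.comp_apply, rename_X, res_X, lsub_X]
    rfl
  rw [← h1]
  rfl

/-- The linear equations of the row space. -/
noncomputable def lf (M : Matrix ρ σ L) (c : ρ → σ) (j : σ) : MvPolynomial σ L :=
  X j - ∑ i, C (M i j) * X (c i)

/-- The multiples of the linear equations, in a degree. -/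
noncomputable def LF (M : Matrix ρ σ L) (c : ρ → σ) (d : ℕ) : Submodule L (MvPolynomial σ L) :=
  Submodule.span L {P | ∃ (β : σ →₀ ℕ) (j : σ), β.degree + 1 = d ∧ P = monomial β 1 * lf M c j}

omit [Fintype σ] [DecidableEq ρ] in
theorem hom_mul_lf (M : Matrix ρ σ L) (c : ρ → σ) (j : σ) {d : ℕ} {P : MvPolynomial σ L}
    (hP : P.IsHomogeneous d) : P * lf M c j ∈ LF M c (d + 1) := by
  rw [P.as_sum, Finset.sum_mul]
  refine Submodule.sum_mem _ fun u hu => ?_
  have h1 : monomial u (P.coeff u) = P.coeff u • monomial u (1 : L) := by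
    rw [smul_monomial, smul_eq_mul, mul_one]
  rw [h1, smul_mul_assoc]
  refine Submodule.smul_mem _ _ (Submodule.subset_span ⟨u, j, ?_, rfl⟩)
  have h2 := hP (mem_support_iff.1 hu)
  rw [Finsupp.degree_eq_weight_one]
  congr 1

omit [Fintype σ] [DecidableEq ρ] in
theorem X_mul_LF (M : Matrix ρ σ L) (c : ρ → σ) (k : σ) {d : ℕ} {P : MvPolynomial σ L}
    (hP : P ∈ LF M c d) : X k * P ∈ LF M c (d + 1) := by
  have h1 : LF M c d ≤ (LF M c (d + 1)).comap (LinearMap.mulLeft L (X k)) := by
    rw [LF, Submodule.span_le]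
    rintro _ ⟨β, j, hβ, rfl⟩
    change X k * (monomial β 1 * lf M c j) ∈ LF M c (d + 1)
    rw [← mul_assoc]
    refine Submodule.subset_span ⟨Finsupp.single k 1 + β, j, ?_, ?_⟩
    · rw [map_add, Finsupp.degree_single]
      omega
    · rw [X, monomial_mul, one_mul]
  exact h1 hP

omit [Fintype σ] [DecidableEq ρ] in
/-- A polynomial is the sum of its restriction and of multiples of the linear equations. -/
theorem sub_mem_LF (M : Matrix ρ σ L) (c : ρ → σ) {d : ℕ} {P : MvPolynomial σ L}
    (hP : P.IsHomogeneous d) : P - rename c (res M P) ∈ LF M c d := by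
  have key : ∀ (d : ℕ) (I : σ →₀ ℕ), I.degree = d →
      monomial I (1 : L) - rename c (res M (monomial I 1)) ∈ LF M c d := by
    intro d
    induction d with
    | zero =>
      intro I hI
      have h0 : I = 0 := (Finsupp.degree_eq_zero_iff I).1 hI
      subst h0
      have h1 : (monomial 0 (1 : L) : MvPolynomial σ L) = 1 := rfl
      rw [h1, map_one, map_one, sub_self]
      exact zero_mem _
    | succ d ih =>
      intro I hI
      obtain ⟨j, hj⟩ : ∃ j, I j ≠ 0 := by
        by_contra hcon
        push Not at hcon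
        have : I = 0 := Finsupp.ext hcon
        rw [this, map_zero] at hI
        omega
      obtain ⟨J, hJ⟩ : ∃ J : σ →₀ ℕ, I = Finsupp.single j 1 + J := by
        refine ⟨I - Finsupp.single j 1, ?_⟩
        rw [add_tsub_cancel_of_le]
        rw [Finsupp.single_le_iff]
        omega
      have hJd : J.degree = d := by
        rw [hJ, map_add, Finsupp.degree_single] at hI
        omega
      have hm : monomial I (1 : L) = X j * monomial J 1 := by
        rw [hJ, X, monomial_mul, one_mul]
      have hr : rename c (res M (monomial I (1 : L))) =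
          (X j - lf M c j) * rename c (res M (monomial J 1)) := by
        rw [hm, map_mul, map_mul, res_X, map_sum, lf, sub_sub_cancel]
        simp only [map_mul, rename_C, rename_X]
      have h1 := ih J hJd
      have h2 : (rename c (res M (monomial J (1 : L)))).IsHomogeneous d :=
        (res_hom M (isHomogeneous_monomial _ hJd)).rename_isHomogeneous
      have h3 : monomial I (1 : L) - rename c (res M (monomial I 1)) =
          X j * (monomial J 1 - rename c (res M (monomial J 1))) +
          rename c (res M (monomial J 1)) * lf M c j := by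
        rw [hr, hm]
        ring
      rw [h3]
      exact add_mem (X_mul_LF M c j h1) (hom_mul_lf M c j h2)
  have h1 : P - rename c (res M P) = ∑ u ∈ P.support, P.coeff u •
      (monomial u (1 : L) - rename c (res M (monomial u 1))) := by
    simp only [smul_sub, Finset.sum_sub_distrib]
    have h2 : ∀ u, P.coeff u • monomial u (1 : L) = monomial u (P.coeff u) := fun u => by
      rw [smul_monomial, smul_eq_mul, mul_one]
    have h3 : ∑ u ∈ P.support, P.coeff u • monomial u (1 : L) = P := by
      simp only [h2]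
      exact P.as_sum.symm
    have h4 : rename c (res M P) = ∑ u ∈ P.support, P.coeff u •
        rename c (res M (monomial u (1 : L))) := by
      conv_lhs => rw [← h3]
      simp only [map_sum, map_smul]
    rw [h3, h4]
  rw [h1]
  refine Submodule.sum_mem _ fun u hu => Submodule.smul_mem _ _ (key d u ?_)
  have h2 := hP (mem_support_iff.1 hu)
  rw [Finsupp.degree_eq_weight_one]
  exact h2

end res

end Pool.Agent.Run7.h621.FV
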