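import Mathlib

/-!
The determinant of a symmetric power of a matrix.
-/

set_option autoImplicit false

open MvPolynomial

namespace Pool.Agent.Run7.h621.FV

section

variable (ρ : Type) (d : ℕ)

/-- Exponents of degree `d`. -/
abbrev Ex : Type := {α : ρ →₀ ℕ // α.degree = d}

end

variable {ρ K : Type} [Fintype ρ] [Field K]

omit [Fintype ρ] in
theorem finite_ex [Finite ρ] (d : ℕ) : Finite (Ex ρ d) := by
  have h1 : {α : ρ →₀ ℕ | α.degree = d}.Finite := by
    refine (Finsupp.finite_of_degree_le d).subset fun I hI => ?_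
    exact le_of_eq hI
  exact h1

noncomputable instance (d : ℕ) : Fintype (Ex ρ d) := @Fintype.ofFinite _ (finite_ex d)

theorem card_ex (d : ℕ) : Fintype.card (Ex ρ d) = (Fintype.card ρ).multichoose d := by
  classical
  rw [← Sym.card_sym_eq_multichoose ρ d]
  refine (Fintype.card_congr ((Sym.equivNatSum ρ d).trans (Equiv.subtypeEquivRight fun α => ?_))).symm
  rfl

/-- The linear substitution. -/
noncomputable def lsub (g : Matrix ρ ρ K) : MvPolynomial ρ K →ₐ[K] MvPolynomial ρ K :=
  aeval fun i => ∑ k, C (g k i) * X k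

theorem lsub_X (g : Matrix ρ ρ K) (i : ρ) : lsub g (X i) = ∑ k, C (g k i) * X k := by
  rw [lsub, aeval_X]

theorem lsub_mul (g h : Matrix ρ ρ K) (P : MvPolynomial ρ K) :
    lsub (g * h) P = lsub g (lsub h P) := by
  have h1 : lsub (g * h) = (lsub g).comp (lsub h) := by
    apply MvPolynomial.algHom_ext
    intro i
    rw [AlgHom.comp_apply, lsub_X, lsub_X, map_sum]
    simp only [map_mul, lsub_X, ← algebraMap_eq, AlgHom.commutes]
    simp only [algebraMap_eq, Matrix.mul_apply, map_sum, Finset.sum_mul, Finset.mul_sum, C_mul]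
    rw [Finset.sum_comm]
    refine Finset.sum_congr rfl fun k _ => Finset.sum_congr rfl fun l _ => ?_
    ring
  rw [h1]
  rfl

theorem lsub_one [DecidableEq ρ] (P : MvPolynomial ρ K) : lsub (1 : Matrix ρ ρ K) P = P := by
  have h1 : lsub (1 : Matrix ρ ρ K) = AlgHom.id K _ := by
    apply MvPolynomial.algHom_ext
    intro i
    rw [lsub_X, AlgHom.id_apply, Finset.sum_eq_single i]
    · rw [Matrix.one_apply_eq, C_1, one_mul]
    · intro k _ hk
      rw [Matrix.one_apply_ne hk, C_0, zero_mul]
    · intro h; exact absurd (Finset.mem_univ _) h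
  rw [h1]
  rfl

theorem lsub_hom (g : Matrix ρ ρ K) {d : ℕ} {P : MvPolynomial ρ K} (hP : P.IsHomogeneous d) :
    (lsub g P).IsHomogeneous d := by
  have h1 := hP.aeval (fun i => ∑ k, C (g k i) * X k) (n := 1) (fun i =>
    IsHomogeneous.sum _ _ _ fun k _ => by
      have := (isHomogeneous_C ρ (g k i)).mul (isHomogeneous_X K k)
      rwa [zero_add] at this)
  rw [one_mul] at h1
  exact h1

/-- A homogeneous polynomial in terms of the monomials. -/
theorem hom_expand {d : ℕ} {P : MvPolynomial ρ K} (hP : P.IsHomogeneous d) :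
    P = ∑ β : Ex ρ d, P.coeff β.1 • monomial β.1 (1 : K) := by
  classical
  ext α
  rw [coeff_sum]
  by_cases hα : α.degree = d
  · rw [Finset.sum_eq_single (⟨α, hα⟩ : Ex ρ d)]
    · rw [coeff_smul, coeff_monomial, if_pos rfl, smul_eq_mul, mul_one]
    · intro β _ hβ
      rw [coeff_smul, coeff_monomial, if_neg, smul_zero]
      intro h
      exact hβ (Subtype.ext h)
    · intro h; exact absurd (Finset.mem_univ _) h
  · rw [hP.coeff_eq_zero hα, Finset.sum_eq_zero]
    intro β _
    rw [coeff_smul, coeff_monomial, if_neg, smul_zero]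
    rintro rfl
    exact hα β.2

theorem hom_mon {σ : Type} {d : ℕ} {α : σ →₀ ℕ} (h : α.degree = d) :
    (monomial α (1 : K)).IsHomogeneous d := isHomogeneous_monomial _ h

/-- The symmetric power of a matrix. -/
noncomputable def Sd (d : ℕ) (g : Matrix ρ ρ K) : Matrix (Ex ρ d) (Ex ρ d) K :=
  Matrix.of fun α β => (lsub g (monomial α.1 1)).coeff β.1

theorem lsub_mon (d : ℕ) (g : Matrix ρ ρ K) (α : Ex ρ d) :
    lsub g (monomial α.1 1) = ∑ β : Ex ρ d, Sd d g α β • monomial β.1 (1 : K) :=
  hom_expand (lsub_hom g (hom_mon α.2))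

theorem Sd_mul (d : ℕ) (g h : Matrix ρ ρ K) : Sd d (g * h) = Sd d h * Sd d g := by
  ext α β
  change (lsub (g * h) (monomial α.1 1)).coeff β.1 = _
  rw [lsub_mul, lsub_mon d h, map_sum, coeff_sum, Matrix.mul_apply]
  refine Finset.sum_congr rfl fun γ _ => ?_
  rw [map_smul, coeff_smul, smul_eq_mul]
  rfl

theorem Sd_one [DecidableEq ρ] (d : ℕ) : Sd d (1 : Matrix ρ ρ K) = 1 := by
  classical
  ext α β
  change (lsub 1 (monomial α.1 1)).coeff β.1 = _
  rw [lsub_one, coeff_monomial, Matrix.one_apply]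
  by_cases h : α = β
  · rw [if_pos h, if_pos (by rw [h])]
  · rw [if_neg h, if_neg fun h' => h (Subtype.ext h')]

theorem Sd_diag [DecidableEq ρ] (d : ℕ) (t : ρ → K) :
    Sd d (Matrix.diagonal t) = Matrix.diagonal fun α : Ex ρ d => ∏ i, t i ^ α.1 i := by
  ext α β
  have h1 : lsub (Matrix.diagonal t) (monomial α.1 (1 : K)) = C (∏ i, t i ^ α.1 i) *
      monomial α.1 1 := by
    have h2 : monomial α.1 (1 : K) = ∏ i, X i ^ α.1 i := by
      rw [monomial_eq, C_1, one_mul, Finsupp.prod_fintype _ _ fun _ => pow_zero _]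
    rw [h2, map_prod, map_prod, ← Finset.prod_mul_distrib]
    refine Finset.prod_congr rfl fun i _ => ?_
    rw [map_pow, lsub_X, Finset.sum_eq_single i]
    · rw [Matrix.diagonal_apply_eq, mul_pow, C_pow]
    · intro k _ hk
      rw [Matrix.diagonal_apply_ne _ hk, C_0, zero_mul]
    · intro h; exact absurd (Finset.mem_univ _) h
  change (lsub (Matrix.diagonal t) (monomial α.1 1)).coeff β.1 = _
  rw [h1, coeff_C_mul, coeff_monomial, Matrix.diagonal_apply]
  by_cases h : α = β
  · rw [if_pos h, if_pos (by rw [h]), mul_one]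
  · rw [if_neg h, if_neg fun h' => h (Subtype.ext h'), mul_zero]

/-- The exponent of the determinant. -/
noncomputable def cdeg (i : ρ) (d : ℕ) : ℕ := ∑ α : Ex ρ d, α.1 i

theorem cdeg_eq (i j : ρ) (d : ℕ) : cdeg i d = cdeg j d := by
  classical
  unfold cdeg
  have hdeg : ∀ α : Ex ρ d, (Finsupp.equivMapDomain (Equiv.swap i j) α.1).degree = d := by
    rintro ⟨α, hα⟩
    refine Eq.trans ?_ hα
    rw [Finsupp.degree_eq_sum, Finsupp.degree_eq_sum]
    exact Equiv.sum_comp (Equiv.swap i j).symm α
  let e : Ex ρ d ≃ Ex ρ d :=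
    { toFun := fun α => ⟨Finsupp.equivMapDomain (Equiv.swap i j) α.1, hdeg α⟩
      invFun := fun α => ⟨Finsupp.equivMapDomain (Equiv.swap i j) α.1, hdeg α⟩
      left_inv := fun α => by
        apply Subtype.ext
        ext k
        simp [Finsupp.equivMapDomain_apply]
      right_inv := fun α => by
        apply Subtype.ext
        ext k
        simp [Finsupp.equivMapDomain_apply] }
  rw [← Equiv.sum_comp e]
  refine Finset.sum_congr rfl fun α _ => ?_
  change Finsupp.equivMapDomain (Equiv.swap i j) α.1 i = α.1 j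
  rw [Finsupp.equivMapDomain_apply, Equiv.symm_swap, Equiv.swap_apply_left]

theorem card_mul_cdeg (i : ρ) (d : ℕ) :
    Fintype.card ρ * cdeg i d = d * Fintype.card (Ex ρ d) := by
  have h1 : ∑ j : ρ, cdeg j d = Fintype.card ρ * cdeg i d := by
    rw [Finset.sum_congr rfl fun j _ => cdeg_eq j i d, Finset.sum_const, Finset.card_univ,
      smul_eq_mul]
  rw [← h1]
  unfold cdeg
  rw [Finset.sum_comm]
  have h2 : ∀ α : Ex ρ d, ∑ j, α.1 j = d := fun α => by
    rw [← Finsupp.degree_eq_sum]
    exact α.2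
  rw [Finset.sum_congr rfl fun α _ => h2 α, Finset.sum_const, Finset.card_univ, smul_eq_mul,
    mul_comm]

theorem det_Sd_diag [DecidableEq ρ] (i0 : ρ) (d : ℕ) (t : ρ → K) :
    (Sd d (Matrix.diagonal t)).det = (Matrix.diagonal t).det ^ cdeg i0 d := by
  rw [Sd_diag, Matrix.det_diagonal, Matrix.det_diagonal, Finset.prod_comm, ← Finset.prod_pow]
  refine Finset.prod_congr rfl fun i _ => ?_
  rw [Finset.prod_pow_eq_pow_sum]
  congr 1
  exact cdeg_eq i i0 d

theorem det_Sd_ne_zero [DecidableEq ρ] (d : ℕ) {g : Matrix ρ ρ K} (hg : g.det ≠ 0) : (Sd d g).det ≠ 0 := by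
  have h1 : Sd d g⁻¹ * Sd d g = 1 := by
    rw [← Sd_mul, Matrix.mul_nonsing_inv _ (isUnit_iff_ne_zero.2 hg), Sd_one]
  intro h0
  have h2 := congrArg Matrix.det h1
  rw [Matrix.det_mul, h0, mul_zero, Matrix.det_one] at h2
  exact zero_ne_one h2

/-- The determinant of the symmetric power. -/
theorem det_Sd [DecidableEq ρ] [CharZero K] (i0 : ρ) (d : ℕ) {g : Matrix ρ ρ K} (hg : g.det ≠ 0) :
    (Sd d g).det = g.det ^ cdeg i0 d := by
  refine Matrix.diagonal_transvection_induction_of_det_ne_zero
    (fun g : Matrix ρ ρ K => (Sd d g).det = g.det ^ cdeg i0 d) g hg (fun t _ => det_Sd_diag i0 d t)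
    (fun t => ?_) (fun A B _ _ hA hB => by
      rw [Sd_mul, Matrix.det_mul, hA, hB, Matrix.det_mul, mul_pow, mul_comm])
  obtain ⟨i, j, hij, c⟩ := t
  change (Sd d (Matrix.transvection i j c)).det = (Matrix.transvection i j c).det ^ _
  rw [Matrix.det_transvection_of_ne i j hij, one_pow]
  obtain ⟨D, hD⟩ : ∃ D : Matrix ρ ρ K, D = Matrix.diagonal fun k => if k = i then 2 else 1 :=
    ⟨_, rfl⟩
  have hDdet : D.det ≠ 0 := by
    rw [hD, Matrix.det_diagonal]
    refine Finset.prod_ne_zero_iff.2 fun k _ => ?_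
    split_ifs
    · exact two_ne_zero
    · exact one_ne_zero
  have hne : ∀ c : K, (Sd d (Matrix.transvection i j c)).det ≠ 0 := fun c => by
    apply det_Sd_ne_zero
    rw [Matrix.det_transvection_of_ne i j hij]
    exact one_ne_zero
  -- conjugation
  have h1 : D * Matrix.transvection i j c = Matrix.transvection i j (2 * c) * D := by
    rw [hD]
    ext a b
    rw [Matrix.diagonal_mul, Matrix.mul_diagonal, Matrix.transvection, Matrix.transvection,
      Matrix.add_apply, Matrix.add_apply, Matrix.single_apply, Matrix.single_apply,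
      Matrix.one_apply]
    by_cases hab : a = b
    · subst hab
      have : ¬ (i = a ∧ j = a) := fun h => hij (h.1.trans h.2.symm)
      simp only [if_true, if_neg this, add_zero]
      ring
    · by_cases h2 : i = a ∧ j = b
      · obtain ⟨rfl, rfl⟩ := h2
        simp [Ne.symm hij, hij]
      · simp [hab, h2]
  have h2 := congrArg (fun A => (Sd d A).det) h1
  simp only [Sd_mul, Matrix.det_mul] at h2
  have h3 : (Sd d (Matrix.transvection i j c)).det = (Sd d (Matrix.transvection i j (2 * c))).det := by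
    have h4 := det_Sd_ne_zero d hDdet
    apply mul_right_cancel₀ h4
    rw [h2, mul_comm]
  have h4 : Matrix.transvection i j (2 * c) = Matrix.transvection i j c *
      Matrix.transvection i j c := by
    rw [Matrix.transvection_mul_transvection_same i j hij, two_mul]
  rw [h4, Sd_mul, Matrix.det_mul] at h3
  have h5 := hne c
  have h6 : (Sd d (Matrix.transvection i j c)).det * 1 = (Sd d (Matrix.transvection i j c)).det *
      (Sd d (Matrix.transvection i j c)).det := by rw [mul_one]; exact h3
  exact (mul_left_cancel₀ h5 h6).symm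

end Pool.Agent.Run7.h621.FV
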